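import Pool.Agent.P8H33.BV.P12

set_option autoImplicit false

namespace Pool.Agent.P8H33.BV

open MvPolynomial

lemma act_eq {n : ℕ} (g F : MvPolynomial (Fin n) ℂ) (s : Finset (Fin n →₀ ℕ))
    (hs : g.support ⊆ s) : act g F = ∑ a ∈ s, coeff a g • diffMon a F := by
  rw [act]
  apply Finset.sum_subset hs
  intro a _ ha
  rw [notMem_support_iff.mp ha, zero_smul]

lemma act_add {n : ℕ} (g h F : MvPolynomial (Fin n) ℂ) : act (g + h) F = act g F + act h F := by
  classical
  rw [act_eq g F (g.support ∪ h.support) Finset.subset_union_left,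
    act_eq h F (g.support ∪ h.support) Finset.subset_union_right,
    act_eq (g + h) F (g.support ∪ h.support) support_add, ← Finset.sum_add_distrib]
  refine Finset.sum_congr rfl fun a _ => ?_
  rw [coeff_add, add_smul]

lemma act_smul {n : ℕ} (c : ℂ) (g F : MvPolynomial (Fin n) ℂ) : act (c • g) F = c • act g F := by
  rw [act_eq (c • g) F g.support (Finsupp.support_smul), act, Finset.smul_sum]
  refine Finset.sum_congr rfl fun a _ => ?_
  rw [coeff_smul, smul_smul, smul_eq_mul]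

lemma act_add_right {n : ℕ} (g F H : MvPolynomial (Fin n) ℂ) :
    act g (F + H) = act g F + act g H := by
  rw [act, act, act, ← Finset.sum_add_distrib]
  refine Finset.sum_congr rfl fun a _ => ?_
  rw [map_add, smul_add]

lemma act_zero {n : ℕ} (F : MvPolynomial (Fin n) ℂ) : act 0 F = 0 := by
  simp [act]

lemma act_sum {n : ℕ} {ι : Type} (s : Finset ι) (g : ι → MvPolynomial (Fin n) ℂ)
    (F : MvPolynomial (Fin n) ℂ) : act (∑ i ∈ s, g i) F = ∑ i ∈ s, act (g i) F := by
  classical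
  induction s using Finset.induction_on with
  | empty => simp [act_zero]
  | insert a s ha ih => rw [Finset.sum_insert ha, Finset.sum_insert ha, act_add, ih]

lemma diffMon5 (d : Fin 5 →₀ ℕ) (F : MvPolynomial (Fin 5) ℂ) :
    diffMon d F = (pderiv 0)^[d 0] ((pderiv 1)^[d 1] ((pderiv 2)^[d 2] ((pderiv 3)^[d 3]
      ((pderiv 4)^[d 4] F)))) := by
  simp only [diffMon, List.ofFn_succ, List.ofFn_zero, List.prod_cons, List.prod_nil, mul_one,
    Module.End.mul_apply, Module.End.pow_apply]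
  rfl

/-- iterated derivatives of `c P^m Q^k` if `∂P = α` and `∂Q = 0` -/
lemma iter_left (i : Fin 5) (P Q : MvPolynomial (Fin 5) ℂ) (α : ℂ) (hP : pderiv i P = C α)
    (hQ : pderiv i Q = 0) (c : ℂ) (m k s : ℕ) :
    (pderiv i)^[s] (C c * P ^ m * Q ^ k) =
      C (c * (m.descFactorial s : ℂ) * α ^ s) * P ^ (m - s) * Q ^ k := by
  induction s with
  | zero => simp
  | succ s ih =>
    rw [Function.iterate_succ_apply', ih, Derivation.leibniz, Derivation.leibniz,
      Derivation.leibniz_pow, Derivation.leibniz_pow, hP, hQ, pderiv_C]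
    have h : m - s - 1 = m - (s + 1) := by omega
    rw [Nat.descFactorial_succ, h]
    simp only [smul_zero, smul_eq_mul, nsmul_eq_mul, mul_zero, zero_add, add_zero]
    have h2 : ((m - s : ℕ) : MvPolynomial (Fin 5) ℂ) = C ((m - s : ℕ) : ℂ) := by simp
    rw [h2]
    simp only [Nat.cast_mul, C_mul, pow_succ]
    ring

lemma iter_right (i : Fin 5) (P Q : MvPolynomial (Fin 5) ℂ) (α : ℂ) (hP : pderiv i P = 0)
    (hQ : pderiv i Q = C α) (c : ℂ) (m k s : ℕ) :
    (pderiv i)^[s] (C c * P ^ m * Q ^ k) =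
      C (c * (k.descFactorial s : ℂ) * α ^ s) * P ^ m * Q ^ (k - s) := by
  have := iter_left i Q P α hQ hP c k m s
  rw [mul_right_comm, this, mul_right_comm]

/-- the linear forms of a point -/
noncomputable def fx (a : Fin 5 → ℂ) : MvPolynomial (Fin 5) ℂ := C (a 0) * X 0 + C (a 1) * X 1
noncomputable def fy (a : Fin 5 → ℂ) : MvPolynomial (Fin 5) ℂ :=
  C (a 2) * X 2 + C (a 3) * X 3 + C (a 4) * X 4

lemma dfx (a : Fin 5 → ℂ) : pderiv 0 (fx a) = C (a 0) ∧ pderiv 1 (fx a) = C (a 1) ∧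
    pderiv 2 (fx a) = 0 ∧ pderiv 3 (fx a) = 0 ∧ pderiv 4 (fx a) = 0 := by
  refine ⟨?_, ?_, ?_, ?_, ?_⟩ <;>
    simp [fx, Derivation.leibniz, pderiv_X]

lemma dfy (a : Fin 5 → ℂ) : pderiv 0 (fy a) = 0 ∧ pderiv 1 (fy a) = 0 ∧
    pderiv 2 (fy a) = C (a 2) ∧ pderiv 3 (fy a) = C (a 3) ∧ pderiv 4 (fy a) = C (a 4) := by
  refine ⟨?_, ?_, ?_, ?_, ?_⟩ <;>
    simp [fy, Derivation.leibniz, pderiv_X]

lemma desc_add (m s t : ℕ) : m.descFactorial s * (m - s).descFactorial t =
    m.descFactorial (s + t) := by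
  induction t with
  | zero => simp
  | succ t ih =>
    rw [← add_assoc, Nat.descFactorial_succ, Nat.descFactorial_succ, ← ih]
    have : m - s - t = m - (s + t) := by omega
    rw [this]
    ring

lemma diffMon_pow (a : Fin 5 → ℂ) (d : Fin 5 →₀ ℕ) (m k : ℕ) :
    diffMon d (fx a ^ m * fy a ^ k) =
      C ((m.descFactorial (d 0 + d 1) : ℂ) * (k.descFactorial (d 2 + d 3 + d 4) : ℂ) *
        (a 0 ^ d 0 * a 1 ^ d 1 * a 2 ^ d 2 * a 3 ^ d 3 * a 4 ^ d 4)) *
      fx a ^ (m - (d 0 + d 1)) * fy a ^ (k - (d 2 + d 3 + d 4)) := by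
  obtain ⟨h0, h1, h2, h3, h4⟩ := dfx a
  obtain ⟨g0, g1, g2, g3, g4⟩ := dfy a
  have e : fx a ^ m * fy a ^ k = C 1 * fx a ^ m * fy a ^ k := by simp
  rw [diffMon5, e, iter_right 4 _ _ _ h4 g4, iter_right 3 _ _ _ h3 g3, iter_right 2 _ _ _ h2 g2,
    iter_left 1 _ _ _ h1 g1, iter_left 0 _ _ _ h0 g0]
  have e1 : m - d 1 - d 0 = m - (d 0 + d 1) := by omega
  have e2 : k - d 4 - d 3 - d 2 = k - (d 2 + d 3 + d 4) := by omega
  rw [e1, e2]
  congr 3
  have f1 := desc_add m (d 1) (d 0)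
  have f2 := desc_add k (d 4) (d 3)
  have f3 := desc_add k (d 4 + d 3) (d 2)
  have f4 : k - (d 4 + d 3) = k - d 4 - d 3 := by omega
  rw [f4] at f3
  rw [show d 0 + d 1 = d 1 + d 0 by omega, show d 2 + d 3 + d 4 = d 4 + d 3 + d 2 by omega, ← f1,
    ← f3, ← f2]
  push_cast
  ring

/-- the action of a form on the point `p² q²` -/
lemma act_pow (a : Fin 5 → ℂ) (i j m k : ℕ) (g : MvPolynomial (Fin 5) ℂ)
    (hg : g ∈ Piece w12 ((i : ℤ), (j : ℤ))) :
    act g (fx a ^ m * fy a ^ k) =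
      C ((m.descFactorial i : ℂ) * (k.descFactorial j : ℂ) * eval a g) *
      fx a ^ (m - i) * fy a ^ (k - j) := by
  rw [mem12] at hg
  have h : ∀ d ∈ g.support, coeff d g • diffMon d (fx a ^ m * fy a ^ k) =
      C ((m.descFactorial i : ℂ) * (k.descFactorial j : ℂ) *
        (coeff d g * ∏ l, a l ^ d l)) * (fx a ^ (m - i) * fy a ^ (k - j)) := by
    intro d hd
    obtain ⟨h1, h2⟩ := hg d (mem_support_iff.mp hd)
    dsimp only at h1 h2
    have h1' : d 0 + d 1 = i := by exact_mod_cast h1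
    have h2' : d 2 + d 3 + d 4 = j := by exact_mod_cast h2
    rw [diffMon_pow, h1', h2', Fin.prod_univ_five, smul_eq_C_mul, ← mul_assoc, ← mul_assoc,
      ← C_mul, mul_assoc]
    congr 2
    ring
  rw [act, Finset.sum_congr rfl h, ← Finset.sum_mul, ← map_sum, ← Finset.mul_sum, eval_eq']
  ring

/-- iterated derivatives of monomials -/
lemma iter_mono (i : Fin 5) (b : Fin 5 →₀ ℕ) (c : ℂ) (s : ℕ) :
    (pderiv i)^[s] (monomial b c) =
      monomial (b - Finsupp.single i s) (c * ((b i).descFactorial s : ℂ)) := by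
  induction s with
  | zero => simp
  | succ s ih =>
    rw [Function.iterate_succ_apply', ih, pderiv_monomial, Nat.descFactorial_succ]
    have e1 : b - Finsupp.single i s - Finsupp.single i 1 = b - Finsupp.single i (s + 1) := by
      ext j
      simp only [Finsupp.tsub_apply, Finsupp.single_apply]
      split_ifs <;> omega
    have e2 : (b - Finsupp.single i s) i = b i - s := by
      rw [Finsupp.tsub_apply, Finsupp.single_eq_same]
    rw [e1, e2, Nat.cast_mul]
    congr 1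
    ring

end Pool.Agent.P8H33.BV
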