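import Pool.Agent.P8H33.BV.Lim2

set_option autoImplicit false

namespace Pool.Agent.P8H33.BV

open MvPolynomial

/-! ### The ideals annihilate `F` -/

lemma F12_eq1 : F12 = LL pψ + (1 / 9 : ℂ) • LL (pt (-1)) + (1 / 9 : ℂ) • LL (pt 2) +
    (16 / 9 : ℂ) • LL (pt (1 / 2)) := by
  have h9 : (C (1 / 9) : MvPolynomial (Fin 5) ℂ) * 9 = 1 := by
    rw [← map_ofNat C 9, ← C_mul]
    norm_num
  have h2 : (C (1 / 2) : MvPolynomial (Fin 5) ℂ) * 2 = 1 := by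
    rw [← map_ofNat C 2, ← C_mul]
    norm_num
  have h16 : (C (16 / 9) : MvPolynomial (Fin 5) ℂ) = C (1 / 9) * 16 := by
    rw [← map_ofNat C 16, ← C_mul]
    norm_num
  have h12 : (16 : MvPolynomial (Fin 5) ℂ) * LL (pt (1 / 2)) =
      (2 * X 0 + X 1) ^ 2 * (2 * X 2 + X 4) ^ 2 := by
    have e1 : (2 * X 0 + X 1 : MvPolynomial (Fin 5) ℂ) = 2 * (X 0 + C (1 / 2) * X 1) := by
      linear_combination (-X 1) * h2
    have e2 : (2 * X 2 + X 4 : MvPolynomial (Fin 5) ℂ) = 2 * (X 2 + C (1 / 2) * X 4) := by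
      linear_combination (-X 4) * h2
    rw [e1, e2]
    simp only [LL, fx, fy, pt, Matrix.cons_val, Fin.isValue, C_1, C_0]
    ring
  rw [smul_eq_C_mul, smul_eq_C_mul, smul_eq_C_mul, h16, mul_assoc (C (1 / 9)) 16, h12]
  simp only [F12, LL, fx, fy, pt, pψ, Matrix.cons_val, Fin.isValue, C_1, C_0, C_neg,
    map_ofNat C 2]
  linear_combination (-(X 0 ^ 2 * X 2 ^ 2 + X 1 ^ 2 * X 4 ^ 2 + (X 0 + X 1) ^ 2 * (X 2 + X 4) ^ 2)
    ) * h9

lemma F12_eq0 : F12 = (1 / 2 : ℂ) • LL (Z 0 0) + (1 / 2 : ℂ) • LL (Z 0 1) + LL (Z 0 2) +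
    LL (Z 0 3) := by
  have h2 : (C (1 / 2) : MvPolynomial (Fin 5) ℂ) * 2 = 1 := by
    rw [← map_ofNat C 2, ← C_mul]
    norm_num
  rw [smul_eq_C_mul, smul_eq_C_mul]
  simp only [F12, LL, fx, fy, Z, q, Matrix.cons_val, Fin.isValue, C_1, C_0, C_neg]
  linear_combination (-(X 0 ^ 2 * (X 2 ^ 2 + X 3 ^ 2))) * h2

lemma ann1 (g : MvPolynomial (Fin 5) ℂ) (hg : g ∈ H1.1) : act g F12 = 0 := by
  refine act_comp g F12 fun u => ?_
  have h1 := vanIdeal_homog w12 Z1 g hg u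
  have h2 := comp_mem w12 u g
  have h3 := vanIdeal_mem w12 Z1 h1
  rw [F12_eq1, act_add_right, act_add_right, act_add_right, act_smul_right, act_smul_right,
    act_smul_right, act_LL pψ _ h2 (h3 0), act_LL (pt (-1)) _ h2 (h3 1),
    act_LL (pt 2) _ h2 (h3 2), act_LL (pt (1 / 2)) _ h2 (h3 3)]
  simp

lemma J0_zero {u : ℤ × ℤ} {f : MvPolynomial (Fin 5) ℂ} (hf : f ∈ Piece w12 u) (hJ : f ∈ J0)
    (k : Fin 4) : eval (Z 0 k) f = 0 := by
  by_cases h0 : f = 0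
  · rw [h0, map_zero]
  obtain ⟨i, j, rfl⟩ := eff hf h0
  rw [mem_J0 hf] at hJ
  rcases Nat.eq_zero_or_pos j with rfl | hj
  · rw [ev0, if_pos (by simp), ev0a_eq] at hJ
    have c0 := congrFun hJ 0
    have c2 := congrFun hJ 2
    have c3 := congrFun hJ 3
    simp only [Fin.isValue, Matrix.cons_val, Pi.zero_apply] at c0 c2 c3
    have k1 : eval (Z 0 1) f = 0 := by rw [eval_q0, c0]
    fin_cases k
    · rw [← k1]
      exact eval_x hf _ _ (by simp [Z, q]) (by simp [Z, q])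
    · exact k1
    · exact c2
    · exact c3
  · rw [ev0, if_neg (by simp; omega)] at hJ
    rw [← ev4_apply, hJ]
    rfl

lemma ann0 (g : MvPolynomial (Fin 5) ℂ) (hg : g ∈ H0.1) : act g F12 = 0 := by
  refine act_comp g F12 fun u => ?_
  have h1 : weightedHomogeneousComponent w12 u g ∈ J0 := H0.2.1 g hg u
  have h2 := comp_mem w12 u g
  have h3 := J0_zero h2 h1
  rw [F12_eq0, act_add_right, act_add_right, act_add_right, act_smul_right, act_smul_right,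
    act_LL _ _ h2 (h3 0), act_LL _ _ h2 (h3 1),
    act_LL _ _ h2 (h3 2), act_LL _ _ h2 (h3 3)]
  simp

/-! ### The two components -/

/-- the degrees of the two open sets -/
lemma isOpen_basic {w : Fin 5 → ℤ × ℤ} {r : ℕ} {k : ℕ} (u : Fin k → ℤ × ℤ)
    (P : MvPolynomial (Fin k × (Fin 5 →₀ ℕ)) ℂ) : IsOpen (basicOpen w r u P) :=
  TopologicalSpace.isOpen_generateFrom_of_mem ⟨k, u, P, rfl⟩

lemma mem_basic (i j : ℕ) (J : Hilb w12 4) :
    J ∈ basicOpen w12 4 (fun _ : Fin 1 => (((i : ℕ) : ℤ), ((j : ℕ) : ℤ)))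
      (X (0, Finsupp.single 0 i + Finsupp.single 2 j)) ↔
    ∃ f ∈ J.1, f ∈ Piece w12 ((i : ℕ), (j : ℕ)) ∧ eval ![1, 0, 1, 0, 0] f ≠ 0 := by
  constructor
  · rintro ⟨f, hf, h⟩
    refine ⟨f 0, (hf 0).1, (hf 0).2, ?_⟩
    rw [eval_X] at h
    rwa [coeff_eq_eval (hf 0).2] at h
  · rintro ⟨f, hf, hu, h⟩
    refine ⟨fun _ => f, fun _ => ⟨hf, hu⟩, ?_⟩
    rw [eval_X]
    show coeff _ f ≠ 0
    rwa [coeff_eq_eval hu]

lemma pp_piece : pp (-3 / 2) (-3 / 2) ∈ Piece w12 ((2 : ℕ), (1 : ℕ)) := by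
  have e : pp (-3 / 2) (-3 / 2) = mo 2 0 1 0 0 + (-3 / 2 : ℂ) • mo 1 1 1 0 0 +
      (-3 / 2 : ℂ) • mo 0 2 1 0 0 + mo 0 2 0 0 1 := by
    simp only [pp, mo, smul_eq_C_mul]
    ring
  rw [e]
  exact Submodule.add_mem _ (Submodule.add_mem _ (Submodule.add_mem _
    (mo_mem' (by omega) (by omega)) (Submodule.smul_mem _ _ (mo_mem' (by omega) (by omega))))
    (Submodule.smul_mem _ _ (mo_mem' (by omega) (by omega)))) (mo_mem' (by omega) (by omega))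

theorem genSat : ∃ K ∈ irreducibleComponents (BVSP w12 B12 F12 4), GenSat w12 B12 F12 4 K := by
  set x : BVSP w12 B12 F12 4 := ⟨H1, H1_slip, ann1⟩ with hx
  refine ⟨irreducibleComponent x, irreducibleComponent_mem_irreducibleComponents x,
    Subtype.val ⁻¹' (basicOpen w12 4 (fun _ : Fin 1 => (((2 : ℕ) : ℤ), ((1 : ℕ) : ℤ)))
      (X (0, Finsupp.single 0 2 + Finsupp.single 2 1))),
    (isOpen_basic _ _).preimage continuous_subtype_val, ⟨x, mem_irreducibleComponent, ?_⟩, ?_⟩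
  · show H1 ∈ basicOpen w12 4 _ _
    rw [mem_basic]
    refine ⟨pp (-3 / 2) (-3 / 2), ?_, pp_piece, ?_⟩
    · refine (mem_vanIdeal w12 Z1 pp_piece).mpr fun k => ?_
      fin_cases k <;> simp [Z1, pψ, pt, pp] <;> norm_num
    · simp [pp]
  · rintro J ⟨_, hJ⟩
    obtain ⟨f, hf, hu, h⟩ := (mem_basic _ _ _).mp hJ
    exact U1_sat J.1.1 J.1.2.2 J.2.2 J.1.2.1 f hf hu h

theorem genNonsat :
    ∃ K ∈ irreducibleComponents (BVSP w12 B12 F12 4), GenNonsat w12 B12 F12 4 K := by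
  set x : BVSP w12 B12 F12 4 := ⟨H0, H0_slip, ann0⟩ with hx
  refine ⟨irreducibleComponent x, irreducibleComponent_mem_irreducibleComponents x,
    Subtype.val ⁻¹' (basicOpen w12 4 (fun _ : Fin 1 => (((0 : ℕ) : ℤ), ((2 : ℕ) : ℤ)))
      (X (0, Finsupp.single 0 0 + Finsupp.single 2 2))),
    (isOpen_basic _ _).preimage continuous_subtype_val, ⟨x, mem_irreducibleComponent, ?_⟩, ?_⟩
  · show H0 ∈ basicOpen w12 4 _ _
    rw [mem_basic]
    have hm : mo 0 0 2 0 0 - mo 0 0 0 2 0 - mo 0 0 1 0 1 ∈ Piece w12 ((0 : ℕ), (2 : ℕ)) :=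
      Submodule.sub_mem _ (Submodule.sub_mem _
        (mo_mem' (by omega) (by omega)) (mo_mem' (by omega) (by omega)))
        (mo_mem' (by omega) (by omega))
    refine ⟨_, ?_, hm, ?_⟩
    · refine (mem_J0 hm).mpr ?_
      rw [ev0, if_neg (by simp), ev4_eq]
      simp only [map_sub, eval_mo, Z, q]
      ext k
      fin_cases k <;> simp
    · simp [mo]
  · rintro J ⟨_, hJ⟩ hs
    obtain ⟨f, hf, hu, h⟩ := (mem_basic _ _ _).mp hJ
    exact U0_nonsat J.1.1 J.1.2.2 J.2.2 hs f hf hu h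

end Pool.Agent.P8H33.BV
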