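import Mathlib

set_option autoImplicit false

/-!
Definitions for border varieties of sums of powers (border apolarity).

A smooth projective toric variety `X` enters through its Cox ring `S = ℂ[x_1, …, x_n]`: the degrees
`w i ∈ Pic X = G` of the variables, and the irrelevant ideal `B`.
-/

namespace Pool.Agent.P8H33.BV

open MvPolynomial

variable {n : ℕ} {G : Type} [AddCommGroup G]

/-- The graded piece `S_u` of the Cox ring. -/
noncomputable abbrev Piece (w : Fin n → G) (u : G) : Submodule ℂ (MvPolynomial (Fin n) ℂ) :=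
  weightedHomogeneousSubmodule ℂ w u

/-- The ideal `I` is homogeneous for the grading by `G`. -/
def IsHomog (w : Fin n → G) (I : Ideal (MvPolynomial (Fin n) ℂ)) : Prop :=
  ∀ f ∈ I, ∀ u : G, weightedHomogeneousComponent w u f ∈ I

/-- The Hilbert function `u ↦ dim (S / I)_u = dim (S_u / (I ∩ S_u))`. -/
noncomputable def hilbFun (w : Fin n → G) (I : Ideal (MvPolynomial (Fin n) ℂ)) (u : G) : ℕ :=
  Module.finrank ℂ (Piece w u ⧸ (I.restrictScalars ℂ).comap (Piece w u).subtype)

/-- The points of the Haiman-Sturmfels multigraded Hilbert scheme `Hilb_S^{h_r}`: the homogeneous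
ideals `I` of `S` with `dim (S / I)_u = min (r, dim S_u)` for all `u`. -/
def Hilb (w : Fin n → G) (r : ℕ) : Type :=
  {I : Ideal (MvPolynomial (Fin n) ℂ) //
    IsHomog w I ∧ ∀ u : G, hilbFun w I u = min r (Module.finrank ℂ (Piece w u))}

/-- The basic Zariski open subset of the multigraded Hilbert scheme given by finitely many degrees
`u 1, …, u k` and a polynomial `P` in the coefficients of `k` polynomials: the ideals `I` such that
`P` does not vanish at some `f 1, …, f k` with `f i ∈ I_{u i}`. -/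
def basicOpen (w : Fin n → G) (r : ℕ) {k : ℕ} (u : Fin k → G)
    (P : MvPolynomial (Fin k × (Fin n →₀ ℕ)) ℂ) : Set (Hilb w r) :=
  {I | ∃ f : Fin k → MvPolynomial (Fin n) ℂ, (∀ i, f i ∈ I.1 ∧ f i ∈ Piece w (u i)) ∧
    eval (fun p => coeff p.2 (f p.1)) P ≠ 0}

/-- The Zariski topology of the multigraded Hilbert scheme. -/
instance zariski (w : Fin n → G) (r : ℕ) : TopologicalSpace (Hilb w r) :=
  TopologicalSpace.generateFrom
    {U | ∃ (k : ℕ) (u : Fin k → G) (P : MvPolynomial (Fin k × (Fin n →₀ ℕ)) ℂ),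
      U = basicOpen w r u P}

/-- `a` is a vector of homogeneous coordinates of a point of `X`: it is not a zero of the irrelevant
ideal. -/
def IsPoint (B : Ideal (MvPolynomial (Fin n) ℂ)) (a : Fin n → ℂ) : Prop :=
  ∃ b ∈ B, eval a b ≠ 0

/-- `a` and `b` are homogeneous coordinates of the same point: they differ by an element of the
torus `Hom (G, ℂˣ)`. -/
def SamePoint (w : Fin n → G) (a b : Fin n → ℂ) : Prop :=
  ∃ χ : Multiplicative G →* ℂˣ, ∀ i, b i = (χ (Multiplicative.ofAdd (w i)) : ℂ) * a i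

/-- The (saturated) ideal of the points with homogeneous coordinates `a 1, …, a r`. -/
noncomputable def vanIdeal (w : Fin n → G) {r : ℕ} (a : Fin r → Fin n → ℂ) :
    Ideal (MvPolynomial (Fin n) ℂ) :=
  Ideal.span {f | (∃ u : G, f ∈ Piece w u) ∧ ∀ k, eval (a k) f = 0}

/-- `Slip_{r, X}`: the closure of the set of the ideals of `r` different points of `X`. -/
def Slip (w : Fin n → G) (B : Ideal (MvPolynomial (Fin n) ℂ)) (r : ℕ) : Set (Hilb w r) :=
  closure {I | ∃ a : Fin r → Fin n → ℂ, (∀ k, IsPoint B (a k)) ∧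
    (∀ k l, k ≠ l → ¬ SamePoint w (a k) (a l)) ∧ I.1 = vanIdeal w a}

/-- The differential operator `∂^a`. -/
noncomputable def diffMon (a : Fin n →₀ ℕ) : Module.End ℂ (MvPolynomial (Fin n) ℂ) :=
  (List.ofFn fun i : Fin n =>
    ((pderiv i : Derivation ℂ (MvPolynomial (Fin n) ℂ) (MvPolynomial (Fin n) ℂ)).toLinearMap :
      Module.End ℂ (MvPolynomial (Fin n) ℂ)) ^ (a i)).prod

/-- The action `g · F` of `S` on the dual polynomial ring `T` by differentiation. -/
noncomputable def act (g F : MvPolynomial (Fin n) ℂ) : MvPolynomial (Fin n) ℂ :=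
  ∑ a ∈ g.support, coeff a g • diffMon a F

/-- The ideal `I` is saturated: `(I : B^∞) = I`. -/
def IsSat (B I : Ideal (MvPolynomial (Fin n) ℂ)) : Prop :=
  ∀ f, (∃ N : ℕ, ∀ b ∈ B ^ N, b * f ∈ I) → f ∈ I

/-- The border variety of sums of powers: the `J` in `Slip_{r, X}` with `J ⊆ Ann F`. -/
def BVSP (w : Fin n → G) (B : Ideal (MvPolynomial (Fin n) ℂ)) (F : MvPolynomial (Fin n) ℂ) (r : ℕ) :
    Set (Hilb w r) :=
  {J | J ∈ Slip w B r ∧ ∀ g ∈ J.1, act g F = 0}

/-- `F ∈ T_v` belongs to the linear span of the images in `ℙ (T_v)` of the points `a 1, …, a r`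
of `X`: it is annihilated by all `g ∈ S_v` which vanish at these points. -/
def InSpan (w : Fin n → G) (v : G) {r : ℕ} (a : Fin r → Fin n → ℂ)
    (F : MvPolynomial (Fin n) ℂ) : Prop :=
  F ∈ Piece w v ∧ ∀ g ∈ Piece w v, (∀ k, eval (a k) g = 0) → act g F = 0

/-- `F ∈ T_v` belongs to the affine cone over the secant variety `σ_r (X) ⊆ ℙ (T_v)`: all
polynomials in the coefficients which vanish on the spans of `r` points of `X` vanish at `F`. -/
def InSecant (w : Fin n → G) (B : Ideal (MvPolynomial (Fin n) ℂ)) (v : G) (r : ℕ)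
    (F : MvPolynomial (Fin n) ℂ) : Prop :=
  F ∈ Piece w v ∧ ∀ P : MvPolynomial (Fin n →₀ ℕ) ℂ,
    (∀ (a : Fin r → Fin n → ℂ) (H : MvPolynomial (Fin n) ℂ), (∀ k, IsPoint B (a k)) →
      InSpan w v a H → eval (fun b => coeff b H) P = 0) →
    eval (fun b => coeff b F) P = 0

/-- The border rank of `F ∈ T_v` with respect to `X` is `r`. -/
def IsBorderRank (w : Fin n → G) (B : Ideal (MvPolynomial (Fin n) ℂ)) (v : G)
    (F : MvPolynomial (Fin n) ℂ) (r : ℕ) : Prop :=
  InSecant w B v r F ∧ ∀ s < r, ¬ InSecant w B v s F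

/-- The general point of the irreducible subset `K` of the border variety is a saturated ideal. -/
def GenSat (w : Fin n → G) (B : Ideal (MvPolynomial (Fin n) ℂ)) (F : MvPolynomial (Fin n) ℂ)
    (r : ℕ) (K : Set (BVSP w B F r)) : Prop :=
  ∃ U : Set (BVSP w B F r), IsOpen U ∧ (K ∩ U).Nonempty ∧ ∀ J ∈ K ∩ U, IsSat B J.1.1

/-- The general point of the irreducible subset `K` of the border variety is a nonsaturated
ideal. -/
def GenNonsat (w : Fin n → G) (B : Ideal (MvPolynomial (Fin n) ℂ)) (F : MvPolynomial (Fin n) ℂ)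
    (r : ℕ) (K : Set (BVSP w B F r)) : Prop :=
  ∃ U : Set (BVSP w B F r), IsOpen U ∧ (K ∩ U).Nonempty ∧ ∀ J ∈ K ∩ U, ¬ IsSat B J.1.1

/-- The degrees of the variables `x_0, x_1, y_0, y_1, y_2` of the Cox ring of `ℙ¹ × ℙ²`. -/
def w12 : Fin 5 → ℤ × ℤ := ![(1, 0), (1, 0), (0, 1), (0, 1), (0, 1)]

/-- The irrelevant ideal `(x_0, x_1) ∩ (y_0, y_1, y_2)` of `ℙ¹ × ℙ²`. -/
noncomputable def B12 : Ideal (MvPolynomial (Fin 5) ℂ) :=
  Ideal.span {X 0, X 1} ⊓ Ideal.span {X 2, X 3, X 4}

/-- `F = x_0² (y_0² + y_1²) + x_1² y_2² + (x_0 + x_1)² (y_0 + y_2)²`, of degree `(2, 2)`. -/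
noncomputable def F12 : MvPolynomial (Fin 5) ℂ :=
  X 0 ^ 2 * (X 2 ^ 2 + X 3 ^ 2) + X 1 ^ 2 * X 4 ^ 2 + (X 0 + X 1) ^ 2 * (X 2 + X 4) ^ 2

end Pool.Agent.P8H33.BV
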