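import Pool.Agent.P8H33.BV.P12

set_option autoImplicit false

namespace Pool.Agent.P8H33.BV

open MvPolynomial

/-- evaluation at four points -/
noncomputable def ev4 (a : Fin 4 → Fin 5 → ℂ) : MvPolynomial (Fin 5) ℂ →ₗ[ℂ] (Fin 4 → ℂ) :=
  LinearMap.pi fun k => (aeval (a k) : MvPolynomial (Fin 5) ℂ →ₐ[ℂ] ℂ).toLinearMap

lemma ev4_apply (a : Fin 4 → Fin 5 → ℂ) (f : MvPolynomial (Fin 5) ℂ) (k : Fin 4) :
    ev4 a f k = eval (a k) f := by
  simp [ev4, aeval_eq_eval]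

lemma ev4_eq (a : Fin 4 → Fin 5 → ℂ) (f : MvPolynomial (Fin 5) ℂ) :
    ev4 a f = ![eval (a 0) f, eval (a 1) f, eval (a 2) f, eval (a 3) f] := by
  ext k
  rw [ev4_apply]
  fin_cases k <;> rfl

lemma eval_mo (a : Fin 5 → ℂ) (i j k l m : ℕ) :
    eval a (mo i j k l m) = a 0 ^ i * a 1 ^ j * a 2 ^ k * a 3 ^ l * a 4 ^ m := by
  simp [mo]

/-- surjectivity from four forms -/
lemma surj_of {u : ℤ × ℤ} {ev : MvPolynomial (Fin 5) ℂ →ₗ[ℂ] (Fin 4 → ℂ)}
    {e1 e2 e3 e4 : MvPolynomial (Fin 5) ℂ} (h1 : e1 ∈ Piece w12 u) (h2 : e2 ∈ Piece w12 u)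
    (h3 : e3 ∈ Piece w12 u) (h4 : e4 ∈ Piece w12 u)
    (h : ∀ v : Fin 4 → ℂ, ∃ c1 c2 c3 c4 : ℂ,
      c1 • ev e1 + c2 • ev e2 + c3 • ev e3 + c4 • ev e4 = v) : SurjOrInj w12 u ev := by
  left
  intro v
  obtain ⟨c1, c2, c3, c4, hc⟩ := h v
  refine ⟨c1 • e1 + c2 • e2 + c3 • e3 + c4 • e4, ?_, ?_⟩
  · exact Submodule.add_mem _ (Submodule.add_mem _ (Submodule.add_mem _
      (Submodule.smul_mem _ _ h1) (Submodule.smul_mem _ _ h2)) (Submodule.smul_mem _ _ h3))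
      (Submodule.smul_mem _ _ h4)
  · rw [map_add, map_add, map_add, map_smul, map_smul, map_smul, map_smul, hc]

lemma inj_of {u : ℤ × ℤ} {ev : MvPolynomial (Fin 5) ℂ →ₗ[ℂ] (Fin 4 → ℂ)}
    (h : ∀ f ∈ Piece w12 u, ev f = 0 → f = 0) : SurjOrInj w12 u ev := Or.inr h

/-- the cases for the degrees -/
lemma deg_cases (P : ℤ × ℤ → Prop) (h0 : ∀ u, (∀ f ∈ Piece w12 u, f = 0) → P u)
    (h00 : P ((0 : ℕ), (0 : ℕ))) (h10 : P ((1 : ℕ), (0 : ℕ))) (h20 : P ((2 : ℕ), (0 : ℕ)))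
    (h01 : P ((0 : ℕ), (1 : ℕ))) (h3 : ∀ i : ℕ, 3 ≤ i → P ((i : ℕ), (0 : ℕ)))
    (h02 : ∀ i j : ℕ, 1 ≤ j → (1 ≤ i ∨ 2 ≤ j) → P ((i : ℕ), (j : ℕ))) (u : ℤ × ℤ) : P u := by
  rcases eff' u with ⟨i, j, rfl⟩ | h
  · rcases Nat.eq_zero_or_pos j with rfl | hj
    · obtain rfl | rfl | rfl | hi : i = 0 ∨ i = 1 ∨ i = 2 ∨ 3 ≤ i := by omega
      · exact h00
      · exact h10
      · exact h20
      · exact h3 i hi
    · by_cases h : 1 ≤ i ∨ 2 ≤ j
      · exact h02 i j hj h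
      · obtain ⟨rfl, rfl⟩ : i = 0 ∧ j = 1 := by omega
        exact h01
  · exact h0 u h

/-! ### The points `Z_ε` -/

/-- the moving second point -/
noncomputable def q (ε : ℂ) : Fin 5 → ℂ := ![1, ε, 1, -1, 0]

noncomputable def Z (ε : ℂ) : Fin 4 → Fin 5 → ℂ :=
  ![![1, 0, 1, 1, 0], q ε, ![1, 1, 1, 0, 1], ![0, 1, 0, 0, 1]]

lemma surjZ (ε : ℂ) (i j : ℕ) (hj : 1 ≤ j) (h : 1 ≤ i ∨ 2 ≤ j) :
    SurjOrInj w12 ((i : ℕ), (j : ℕ)) (ev4 (Z ε)) := by
  have hj0 : j ≠ 0 := by omega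
  have h4 : ((0 : ℂ) ^ i * 0 ^ (j - 1)) = 0 := by
    rcases h with h | h
    · rw [zero_pow (by omega), zero_mul]
    · rw [zero_pow (by omega : j - 1 ≠ 0), mul_zero]
  refine surj_of (e1 := mo i 0 j 0 0) (e2 := mo i 0 (j - 1) 1 0) (e3 := mo i 0 (j - 1) 0 1)
    (e4 := mo 0 i 0 0 j) (mo_mem' (by omega) (by omega)) (mo_mem' (by omega) (by omega))
    (mo_mem' (by omega) (by omega)) (mo_mem' (by omega) (by omega)) ?_
  intro v
  refine ⟨(v 0 + v 1) / 2, (v 0 - v 1) / 2, v 2 - (v 0 + v 1) / 2 - v 3, v 3, ?_⟩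
  simp only [ev4_eq, eval_mo, Z, q]
  ext k
  fin_cases k
  · simp [hj0]
    ring
  · simp [hj0]
    ring
  · simp [hj0]
    ring
  · simp [hj0, h4]

lemma SOI_Z (ε : ℂ) (h0 : ε ≠ 0) (h1 : ε ≠ 1) (u : ℤ × ℤ) : SurjOrInj w12 u (ev4 (Z ε)) := by
  revert u
  refine deg_cases _ ?_ ?_ ?_ ?_ ?_ ?_ ?_
  · exact fun u h => inj_of fun f hf _ => h f hf
  · refine inj_of fun f hf h => ?_
    obtain ⟨a, rfl⟩ := form00 hf
    have := congrFun h 0
    rw [ev4_apply] at this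
    simp at this
    rw [this, C_0]
  · refine inj_of fun f hf h => ?_
    obtain ⟨a, b, rfl⟩ := form10 hf
    have e0 := congrFun h 0
    have e3 := congrFun h 3
    rw [ev4_apply] at e0 e3
    simp [Z] at e0 e3
    rw [e0, e3]
    simp
  · refine inj_of fun f hf h => ?_
    obtain ⟨a, b, c, rfl⟩ := form20 hf
    have e0 := congrFun h 0
    have e2 := congrFun h 2
    have e3 := congrFun h 3
    rw [ev4_apply] at e0 e2 e3
    simp [Z] at e0 e2 e3
    rw [e0, e3] at e2 ⊢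
    have : b = 0 := by linear_combination e2
    rw [this]
    simp
  · refine inj_of fun f hf h => ?_
    obtain ⟨a, b, c, rfl⟩ := form01 hf
    have e0 := congrFun h 0
    have e1 := congrFun h 1
    have e3 := congrFun h 3
    rw [ev4_apply] at e0 e1 e3
    simp [Z, q] at e0 e1 e3
    have ha : a = 0 := by linear_combination (e0 + e1) / 2
    have hb : b = 0 := by linear_combination (e0 - e1) / 2
    rw [ha, hb, e3]
    simp
  · intro i hi
    have hi0 : i ≠ 0 := by omega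
    have hi1 : i - 1 ≠ 0 := by omega
    have hi2 : i - 2 ≠ 0 := by omega
    refine surj_of (e1 := mo i 0 0 0 0) (e2 := mo (i - 1) 1 0 0 0) (e3 := mo (i - 2) 2 0 0 0)
      (e4 := mo 0 i 0 0 0) (mo_mem' (by omega) (by omega)) (mo_mem' (by omega) (by omega))
      (mo_mem' (by omega) (by omega)) (mo_mem' (by omega) (by omega)) ?_
    intro v
    have hne : ε ^ 2 - ε ≠ 0 := by
      have : ε ^ 2 - ε = ε * (ε - 1) := by ring
      rw [this]
      exact mul_ne_zero h0 (sub_ne_zero.mpr h1)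
    set c3 : ℂ := ((v 1 - v 0 - v 3 * ε ^ i) - ε * (v 2 - v 0 - v 3)) / (ε ^ 2 - ε) with hc3
    have hc3' : c3 * (ε ^ 2 - ε) = (v 1 - v 0 - v 3 * ε ^ i) - ε * (v 2 - v 0 - v 3) :=
      div_mul_cancel₀ _ hne
    refine ⟨v 0, v 2 - v 0 - v 3 - c3, c3, v 3, ?_⟩
    simp only [ev4_eq, eval_mo, Z, q]
    ext k
    fin_cases k
    · simp [hi0]
    · simp
      linear_combination hc3'
    · simp
      ring
    · simp [hi0, hi1, hi2]
  · exact fun i j hj h => surjZ ε i j hj h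

/-! ### The ideals `K μ ν` -/

noncomputable def Cp (μ ν : ℂ) : Polynomial ℂ :=
  Polynomial.X ^ 3 + Polynomial.C ν * Polynomial.X ^ 2 + Polynomial.C μ * Polynomial.X + 1

lemma Cp_deg (μ ν : ℂ) : (Cp μ ν).natDegree = 3 := by
  rw [Cp]
  compute_degree!

lemma Cp_monic (μ ν : ℂ) : (Cp μ ν).Monic := by
  rw [Cp]
  monicity!

noncomputable def φ : MvPolynomial (Fin 5) ℂ →ₐ[ℂ] Polynomial ℂ :=
  aeval ![1, Polynomial.X, 1, 0, Polynomial.X]

/-- the point `(1 : 0), (0 : 1 : 0)` -/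
noncomputable def pψ : Fin 5 → ℂ := ![1, 0, 0, 1, 0]

noncomputable def evK (μ ν : ℂ) : MvPolynomial (Fin 5) ℂ →ₗ[ℂ] (Fin 4 → ℂ) :=
  LinearMap.pi ![(Polynomial.lcoeff ℂ 0).comp ((Polynomial.modByMonicHom (Cp μ ν)).comp
      φ.toLinearMap),
    (Polynomial.lcoeff ℂ 1).comp ((Polynomial.modByMonicHom (Cp μ ν)).comp φ.toLinearMap),
    (Polynomial.lcoeff ℂ 2).comp ((Polynomial.modByMonicHom (Cp μ ν)).comp φ.toLinearMap),
    (aeval pψ : MvPolynomial (Fin 5) ℂ →ₐ[ℂ] ℂ).toLinearMap]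

lemma evK_eq (μ ν : ℂ) (f : MvPolynomial (Fin 5) ℂ) :
    evK μ ν f = ![(φ f %ₘ Cp μ ν).coeff 0, (φ f %ₘ Cp μ ν).coeff 1, (φ f %ₘ Cp μ ν).coeff 2,
      eval pψ f] := by
  ext k
  fin_cases k
  · simp [evK]
  · simp [evK]
  · simp [evK]
  · simp [evK, aeval_eq_eval]

lemma evK_zero (μ ν : ℂ) (f : MvPolynomial (Fin 5) ℂ) :
    evK μ ν f = 0 ↔ Cp μ ν ∣ φ f ∧ eval pψ f = 0 := by
  rw [evK_eq, ← (Polynomial.modByMonic_eq_zero_iff_dvd (Cp_monic μ ν))]
  constructor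
  · intro h
    have h0 := congrFun h 0
    have h1 := congrFun h 1
    have h2 := congrFun h 2
    have h3 := congrFun h 3
    simp only [Fin.isValue, Matrix.cons_val, Pi.zero_apply] at h0 h1 h2 h3
    refine ⟨?_, h3⟩
    ext k
    rw [Polynomial.coeff_zero]
    obtain rfl | rfl | rfl | hk : k = 0 ∨ k = 1 ∨ k = 2 ∨ 3 ≤ k := by omega
    · exact h0
    · exact h1
    · exact h2
    · apply Polynomial.coeff_eq_zero_of_degree_lt
      refine lt_of_lt_of_le (Polynomial.degree_modByMonic_lt _ (Cp_monic μ ν)) ?_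
      rw [Polynomial.degree_eq_natDegree (Cp_monic μ ν).ne_zero, Cp_deg]
      exact_mod_cast hk
  · rintro ⟨h, h'⟩
    rw [h, h']
    ext k
    fin_cases k <;> simp

lemma φ_mo (i j k l m : ℕ) : φ (mo i j k l m) = Polynomial.X ^ (j + m) * 0 ^ l := by
  simp [φ, mo, pow_add]
  ring

lemma mod_of (μ ν : ℂ) {g h : Polynomial ℂ} (hd : h.degree < 3) (hg : Cp μ ν ∣ g - h) :
    g %ₘ Cp μ ν = h := by
  have h1 : h %ₘ Cp μ ν = h := by
    rw [Polynomial.modByMonic_eq_self_iff (Cp_monic μ ν),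
      Polynomial.degree_eq_natDegree (Cp_monic μ ν).ne_zero, Cp_deg]
    exact hd
  have h2 : (g - h) %ₘ Cp μ ν = 0 := (Polynomial.modByMonic_eq_zero_iff_dvd (Cp_monic μ ν)).mpr hg
  rw [Polynomial.sub_modByMonic, h1] at h2
  exact sub_eq_zero.mp h2

lemma evK_of (μ ν : ℂ) {f : MvPolynomial (Fin 5) ℂ} {h : Polynomial ℂ} (hd : h.degree < 3)
    (hg : Cp μ ν ∣ φ f - h) : evK μ ν f = ![h.coeff 0, h.coeff 1, h.coeff 2, eval pψ f] := by
  rw [evK_eq, mod_of μ ν hd hg]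

lemma evK_of' (μ ν : ℂ) {f : MvPolynomial (Fin 5) ℂ} {h : Polynomial ℂ} (hd : h.degree < 3)
    (hg : φ f = h) : evK μ ν f = ![h.coeff 0, h.coeff 1, h.coeff 2, eval pψ f] :=
  evK_of μ ν hd (by rw [hg, sub_self]; exact dvd_zero _)

open Polynomial in
lemma evK_quad (μ ν : ℂ) {f : MvPolynomial (Fin 5) ℂ} (a b c : ℂ)
    (hg : Cp μ ν ∣ φ f - (Polynomial.C a + Polynomial.C b * Polynomial.X +
      Polynomial.C c * Polynomial.X ^ 2)) : evK μ ν f = ![a, b, c, MvPolynomial.eval pψ f] := by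
  have hd : (Polynomial.C a + Polynomial.C b * Polynomial.X +
      Polynomial.C c * Polynomial.X ^ 2).degree < 3 := by
    refine lt_of_le_of_lt (b := 2) ?_ (by norm_num)
    compute_degree!
  rw [evK_of μ ν hd hg]
  simp [Polynomial.coeff_X, Polynomial.coeff_X_pow, Polynomial.coeff_C]

lemma quad_zero (μ ν : ℂ) {a b c : ℂ} (h : Cp μ ν ∣ Polynomial.C a + Polynomial.C b * Polynomial.X +
      Polynomial.C c * Polynomial.X ^ 2) : a = 0 ∧ b = 0 ∧ c = 0 := by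
  have h0 : Polynomial.C a + Polynomial.C b * Polynomial.X +
      Polynomial.C c * Polynomial.X ^ 2 = 0 := by
    refine Polynomial.eq_zero_of_dvd_of_degree_lt h ?_
    rw [Polynomial.degree_eq_natDegree (Cp_monic μ ν).ne_zero, Cp_deg]
    refine lt_of_le_of_lt (b := 2) ?_ (by norm_num)
    compute_degree!
  have c0 := congrArg (fun p => Polynomial.coeff p 0) h0
  have c1 := congrArg (fun p => Polynomial.coeff p 1) h0
  have c2 := congrArg (fun p => Polynomial.coeff p 2) h0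
  simp [Polynomial.coeff_X, Polynomial.coeff_C] at c0 c1 c2
  exact ⟨c0, c1, c2⟩

lemma SOI_K (μ ν : ℂ) (u : ℤ × ℤ) : SurjOrInj w12 u (evK μ ν) := by
  revert u
  refine deg_cases _ ?_ ?_ ?_ ?_ ?_ ?_ ?_
  · exact fun u h => inj_of fun f hf _ => h f hf
  · refine inj_of fun f hf h => ?_
    obtain ⟨a, rfl⟩ := form00 hf
    obtain ⟨h1, h2⟩ := (evK_zero μ ν _).mp h
    simp at h2
    rw [h2, C_0]
  · refine inj_of fun f hf h => ?_
    obtain ⟨a, b, rfl⟩ := form10 hf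
    obtain ⟨h1, h2⟩ := (evK_zero μ ν _).mp h
    have h3 : φ (C a * X 0 + C b * X 1) = Polynomial.C a + Polynomial.C b * Polynomial.X +
      Polynomial.C 0 * Polynomial.X ^ 2 := by simp [φ]
    rw [h3] at h1
    obtain ⟨ha, hb, _⟩ := quad_zero μ ν h1
    rw [ha, hb]; simp
  · refine inj_of fun f hf h => ?_
    obtain ⟨a, b, c, rfl⟩ := form20 hf
    obtain ⟨h1, h2⟩ := (evK_zero μ ν _).mp h
    have h3 : φ (C a * X 0 ^ 2 + C b * (X 0 * X 1) + C c * X 1 ^ 2) = Polynomial.C a +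
      Polynomial.C b * Polynomial.X + Polynomial.C c * Polynomial.X ^ 2 := by simp [φ]
    rw [h3] at h1
    obtain ⟨ha, hb, hc⟩ := quad_zero μ ν h1
    rw [ha, hb, hc]; simp
  · refine inj_of fun f hf h => ?_
    obtain ⟨a, b, c, rfl⟩ := form01 hf
    obtain ⟨h1, h2⟩ := (evK_zero μ ν _).mp h
    have h3 : φ (C a * X 2 + C b * X 3 + C c * X 4) = Polynomial.C a +
      Polynomial.C c * Polynomial.X + Polynomial.C 0 * Polynomial.X ^ 2 := by simp [φ]
    rw [h3] at h1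
    obtain ⟨ha, hc, _⟩ := quad_zero μ ν h1
    simp [pψ] at h2
    rw [ha, h2, hc]; simp
  · intro i hi
    have hi0 : i ≠ 0 := by omega
    have hi1 : i - 1 ≠ 0 := by omega
    have hi2 : i - 2 ≠ 0 := by omega
    refine surj_of (e1 := mo i 0 0 0 0) (e2 := mo (i - 1) 1 0 0 0) (e3 := mo (i - 2) 2 0 0 0)
      (e4 := mo (i - 3) 3 0 0 0) (mo_mem' (by omega) (by omega)) (mo_mem' (by omega) (by omega))
      (mo_mem' (by omega) (by omega)) (mo_mem' (by omega) (by omega)) ?_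
    intro v
    refine ⟨v 3, v 1 + μ * (v 3 - v 0), v 2 + ν * (v 3 - v 0), v 3 - v 0, ?_⟩
    rw [evK_quad μ ν 1 0 0 (by simp [φ_mo]), evK_quad μ ν 0 1 0 (by simp [φ_mo]),
      evK_quad μ ν 0 0 1 (by simp [φ_mo]), evK_quad μ ν (-1) (-μ) (-ν) (by
        rw [φ_mo, Cp]
        refine Dvd.intro 1 ?_
        simp
        ring)]
    simp only [eval_mo, pψ]
    ext k
    fin_cases k
    · simp
    · simp
      ring
    · simp
      ring
    · simp
  · intro i j hj h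
    have hj0 : j ≠ 0 := by omega
    rcases Nat.eq_zero_or_pos i with rfl | hi
    · have hj1 : j - 1 ≠ 0 := by omega
      have hj2 : 2 ≤ j := by omega
      refine surj_of (e1 := mo 0 0 j 0 0) (e2 := mo 0 0 (j - 1) 0 1)
        (e3 := mo 0 0 (j - 2) 0 2) (e4 := mo 0 0 0 j 0) (mo_mem' (by omega) (by omega))
        (mo_mem' (by omega) (by omega)) (mo_mem' (by omega) (by omega))
        (mo_mem' (by omega) (by omega)) ?_
      intro v
      refine ⟨v 0, v 1, v 2, v 3, ?_⟩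
      rw [evK_quad μ ν 1 0 0 (by simp [φ_mo]), evK_quad μ ν 0 1 0 (by simp [φ_mo]),
        evK_quad μ ν 0 0 1 (by simp [φ_mo]), evK_quad μ ν 0 0 0 (by simp [φ_mo, hj0])]
      simp only [eval_mo, pψ]
      ext k
      fin_cases k <;> simp [hj0]
    · refine surj_of (e1 := mo i 0 j 0 0) (e2 := mo (i - 1) 1 j 0 0)
        (e3 := mo (i - 1) 1 (j - 1) 0 1) (e4 := mo i 0 0 j 0) (mo_mem' (by omega) (by omega))
        (mo_mem' (by omega) (by omega)) (mo_mem' (by omega) (by omega))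
        (mo_mem' (by omega) (by omega)) ?_
      intro v
      refine ⟨v 0, v 1, v 2, v 3, ?_⟩
      rw [evK_quad μ ν 1 0 0 (by simp [φ_mo]), evK_quad μ ν 0 1 0 (by simp [φ_mo]),
        evK_quad μ ν 0 0 1 (by simp [φ_mo]), evK_quad μ ν 0 0 0 (by simp [φ_mo, hj0])]
      simp only [eval_mo, pψ]
      ext k
      fin_cases k <;> simp [hj0]

end Pool.Agent.P8H33.BV
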