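import Pool.Agent.P8H33.BV.Defs

set_option autoImplicit false

namespace Pool.Agent.P8H33.BV

open MvPolynomial

variable {n : ℕ} {G : Type} [AddCommGroup G]

section lin

variable {V : Type} [AddCommGroup V] [Module ℂ V] [FiniteDimensional ℂ V] {r : ℕ}

lemma finrank_quot_of_surj (ev : V →ₗ[ℂ] (Fin r → ℂ)) (hs : Function.Surjective ev) :
    Module.finrank ℂ (V ⧸ LinearMap.ker ev) = r ∧ r ≤ Module.finrank ℂ V := by
  have h1 := (ev.quotKerEquivOfSurjective hs).finrank_eq
  rw [Module.finrank_fin_fun] at h1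
  refine ⟨h1, ?_⟩
  have h2 := (LinearMap.ker ev).finrank_quotient_add_finrank
  omega

lemma finrank_quot_of_inj (ev : V →ₗ[ℂ] (Fin r → ℂ)) (hi : Function.Injective ev) :
    Module.finrank ℂ (V ⧸ LinearMap.ker ev) = Module.finrank ℂ V ∧ Module.finrank ℂ V ≤ r := by
  have h1 : LinearMap.ker ev = ⊥ := LinearMap.ker_eq_bot.mpr hi
  have h2 := (LinearMap.ker ev).finrank_quotient_add_finrank
  have h3 : Module.finrank ℂ (LinearMap.ker ev) = 0 := by rw [h1]; exact finrank_bot ℂ V
  refine ⟨by omega, ?_⟩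
  have h4 := LinearMap.finrank_le_finrank_of_injective hi
  rwa [Module.finrank_fin_fun] at h4

lemma eq_ker_of_le (N : Submodule ℂ V) (ev : V →ₗ[ℂ] (Fin r → ℂ)) (hs : Function.Surjective ev)
    (hN : N ≤ LinearMap.ker ev)
    (hf : Module.finrank ℂ (V ⧸ N) = min r (Module.finrank ℂ V)) : N = LinearMap.ker ev := by
  apply Submodule.eq_of_le_of_finrank_le hN
  have h1 := finrank_quot_of_surj ev hs
  have h2 := (LinearMap.ker ev).finrank_quotient_add_finrank
  have h3 := N.finrank_quotient_add_finrank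
  omega

end lin

/-- the part of `I` in degree `u` -/
noncomputable abbrev part (w : Fin n → G) (I : Ideal (MvPolynomial (Fin n) ℂ)) (u : G) :
    Submodule ℂ (Piece w u) :=
  (I.restrictScalars ℂ).comap (Piece w u).subtype

lemma mem_part (w : Fin n → G) (I : Ideal (MvPolynomial (Fin n) ℂ)) (u : G) (f : Piece w u) :
    f ∈ part w I u ↔ (f : MvPolynomial (Fin n) ℂ) ∈ I := Iff.rfl

/-- `ev` is surjective or injective on `S_u` -/
def SurjOrInj (w : Fin n → G) (u : G) {r : ℕ} (ev : MvPolynomial (Fin n) ℂ →ₗ[ℂ] (Fin r → ℂ)) :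
    Prop :=
  (∀ v, ∃ f ∈ Piece w u, ev f = v) ∨ ∀ f ∈ Piece w u, ev f = 0 → f = 0

lemma hilb_of_ker (w : Fin n → G) (I : Ideal (MvPolynomial (Fin n) ℂ)) (u : G) {r : ℕ}
    (ev : MvPolynomial (Fin n) ℂ →ₗ[ℂ] (Fin r → ℂ)) [FiniteDimensional ℂ (Piece w u)]
    (hI : ∀ f ∈ Piece w u, (f ∈ I ↔ ev f = 0)) (h : SurjOrInj w u ev) :
    hilbFun w I u = min r (Module.finrank ℂ (Piece w u)) := by
  have h1 : part w I u = LinearMap.ker (ev.comp (Piece w u).subtype) := by
    ext f
    rw [mem_part, hI _ f.2]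
    rfl
  show Module.finrank ℂ (Piece w u ⧸ part w I u) = _
  rw [h1]
  rcases h with h | h
  · obtain ⟨h2, h3⟩ := finrank_quot_of_surj (ev.comp (Piece w u).subtype) (fun v => by
      obtain ⟨f, hf, hv⟩ := h v
      exact ⟨⟨f, hf⟩, hv⟩)
    omega
  · obtain ⟨h2, h3⟩ := finrank_quot_of_inj (ev.comp (Piece w u).subtype) (by
      rw [← LinearMap.ker_eq_bot, LinearMap.ker_eq_bot']
      intro f hf
      exact Subtype.ext (h f.1 f.2 hf))
    omega

lemma mem_of_ev (w : Fin n → G) (J : Ideal (MvPolynomial (Fin n) ℂ)) (u : G) {r : ℕ}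
    (ev : MvPolynomial (Fin n) ℂ →ₗ[ℂ] (Fin r → ℂ)) [FiniteDimensional ℂ (Piece w u)]
    (hJ : hilbFun w J u = min r (Module.finrank ℂ (Piece w u)))
    (hle : ∀ f ∈ J, f ∈ Piece w u → ev f = 0) (h : SurjOrInj w u ev)
    (f : MvPolynomial (Fin n) ℂ) (hf : f ∈ Piece w u) (h0 : ev f = 0) : f ∈ J := by
  rcases h with h | h
  · have h1 : part w J u = LinearMap.ker (ev.comp (Piece w u).subtype) := by
      refine eq_ker_of_le _ _ (fun v => ?_) (fun f hf => hle _ hf f.2) hJ
      obtain ⟨f, hf, hv⟩ := h v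
      exact ⟨⟨f, hf⟩, hv⟩
    have h2 : (⟨f, hf⟩ : Piece w u) ∈ part w J u := by rw [h1]; exact h0
    exact h2
  · rw [h f hf h0]; exact J.zero_mem

/-- if `ev` is injective on `S_u` then `J_u = 0` -/
lemma zero_of_inj (w : Fin n → G) (J : Ideal (MvPolynomial (Fin n) ℂ)) (u : G) {r : ℕ}
    (ev : MvPolynomial (Fin n) ℂ →ₗ[ℂ] (Fin r → ℂ)) [FiniteDimensional ℂ (Piece w u)]
    (hJ : hilbFun w J u = min r (Module.finrank ℂ (Piece w u)))
    (h : ∀ f ∈ Piece w u, ev f = 0 → f = 0)
    (f : MvPolynomial (Fin n) ℂ) (hf : f ∈ Piece w u) (hfJ : f ∈ J) : f = 0 := by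
  obtain ⟨h2, h3⟩ := finrank_quot_of_inj (ev.comp (Piece w u).subtype) (by
      rw [← LinearMap.ker_eq_bot, LinearMap.ker_eq_bot']
      intro f hf
      exact Subtype.ext (h f.1 f.2 hf))
  have h4 : Module.finrank ℂ (Piece w u ⧸ part w J u) = Module.finrank ℂ (Piece w u) := by
    have : Module.finrank ℂ (Piece w u ⧸ part w J u) = _ := hJ
    omega
  have h5 := (part w J u).finrank_quotient_add_finrank
  have h6 : Module.finrank ℂ (part w J u) = 0 := by omega
  have h7 : part w J u = ⊥ := Submodule.finrank_eq_zero.mp h6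
  have h8 : (⟨f, hf⟩ : Piece w u) ∈ part w J u := hfJ
  rw [h7, Submodule.mem_bot] at h8
  exact congrArg Subtype.val h8

/-! ### components -/

lemma comp_X_mul (w : Fin n → G) (u : G) (i : Fin n) (f : MvPolynomial (Fin n) ℂ) :
    weightedHomogeneousComponent w u (X i * f) =
      X i * weightedHomogeneousComponent w (u - w i) f := by
  classical
  ext d
  rw [coeff_weightedHomogeneousComponent, coeff_X_mul', coeff_X_mul',
    coeff_weightedHomogeneousComponent]
  by_cases hi : i ∈ d.support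
  · rw [if_pos hi, if_pos hi]
    have h1 : d = (d - Finsupp.single i 1) + Finsupp.single i 1 := by
      ext j
      rw [Finsupp.add_apply, Finsupp.tsub_apply]
      by_cases hj : i = j
      · subst hj
        have := Finsupp.mem_support_iff.mp hi
        rw [Finsupp.single_eq_same]
        omega
      · rw [Finsupp.single_apply, if_neg hj]
        simp
    have h2 : Finsupp.weight w d = Finsupp.weight w (d - Finsupp.single i 1) + w i := by
      conv_lhs => rw [h1]
      rw [map_add, Finsupp.weight_single]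
      simp
    rw [h2]
    by_cases h : Finsupp.weight w (d - Finsupp.single i 1) = u - w i
    · rw [if_pos h, if_pos (by rw [h]; abel)]
    · rw [if_neg h, if_neg (fun h' => h (by rw [← h']; abel))]
  · rw [if_neg hi, if_neg hi]
    simp

lemma comp_of_mem (w : Fin n → G) {u : G} {f : MvPolynomial (Fin n) ℂ} (hf : f ∈ Piece w u) :
    weightedHomogeneousComponent w u f = f :=
  IsWeightedHomogeneous.weightedHomogeneousComponent_same
    ((mem_weightedHomogeneousSubmodule ℂ w u f).mp hf)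

lemma comp_of_mem_ne (w : Fin n → G) {u v : G} {f : MvPolynomial (Fin n) ℂ} (hf : f ∈ Piece w u)
    (h : v ≠ u) : weightedHomogeneousComponent w v f = 0 :=
  IsWeightedHomogeneous.weightedHomogeneousComponent_ne v
    ((mem_weightedHomogeneousSubmodule ℂ w u f).mp hf) h

lemma comp_mem (w : Fin n → G) (u : G) (f : MvPolynomial (Fin n) ℂ) :
    weightedHomogeneousComponent w u f ∈ Piece w u :=
  (mem_weightedHomogeneousSubmodule ℂ w u _).mpr
    (weightedHomogeneousComponent_isWeightedHomogeneous u f)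

lemma eq_sum_comp (w : Fin n → G) (f : MvPolynomial (Fin n) ℂ) :
    ∃ s : Finset G, f = ∑ u ∈ s, weightedHomogeneousComponent w u f := by
  classical
  refine ⟨f.support.image (Finsupp.weight w), ?_⟩
  ext d
  rw [coeff_sum]
  simp_rw [coeff_weightedHomogeneousComponent]
  rw [Finset.sum_ite_eq]
  split_ifs with h
  · rfl
  · by_contra h'
    exact h (Finset.mem_image_of_mem _ (mem_support_iff.mpr h'))

lemma mem_of_comp (w : Fin n → G) (I : Ideal (MvPolynomial (Fin n) ℂ))
    (f : MvPolynomial (Fin n) ℂ) (h : ∀ u, weightedHomogeneousComponent w u f ∈ I) : f ∈ I := by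
  obtain ⟨s, hs⟩ := eq_sum_comp w f
  rw [hs]
  exact I.sum_mem fun u _ => h u

/-- The ideal with prescribed graded pieces. -/
noncomputable def idealOf (w : Fin n → G) (K : G → Submodule ℂ (MvPolynomial (Fin n) ℂ))
    (hK : ∀ u i, ∀ f ∈ K u, f ∈ Piece w u → X i * f ∈ K (u + w i)) :
    Ideal (MvPolynomial (Fin n) ℂ) where
  carrier := {f | ∀ u, weightedHomogeneousComponent w u f ∈ K u}
  add_mem' := by
    intro a b ha hb u
    rw [map_add]
    exact (K u).add_mem (ha u) (hb u)
  zero_mem' := by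
    intro u
    rw [map_zero]
    exact (K u).zero_mem
  smul_mem' := by
    intro c x hx
    rw [smul_eq_mul]
    induction c using MvPolynomial.induction_on with
    | C a =>
      intro u
      rw [← smul_eq_C_mul, map_smul]
      exact (K u).smul_mem _ (hx u)
    | add p q hp hq =>
      intro u
      rw [add_mul, map_add]
      exact (K u).add_mem (hp u) (hq u)
    | mul_X p i hp =>
      intro u
      rw [mul_comm p, mul_assoc, comp_X_mul]
      have := hK (u - w i) i _ (hp (u - w i)) (comp_mem w _ _)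
      rwa [sub_add_cancel] at this

lemma mem_idealOf (w : Fin n → G) (K : G → Submodule ℂ (MvPolynomial (Fin n) ℂ))
    (hK : ∀ u i, ∀ f ∈ K u, f ∈ Piece w u → X i * f ∈ K (u + w i)) (f : MvPolynomial (Fin n) ℂ) :
    f ∈ idealOf w K hK ↔ ∀ u, weightedHomogeneousComponent w u f ∈ K u := Iff.rfl

lemma mem_idealOf_of_mem (w : Fin n → G) (K : G → Submodule ℂ (MvPolynomial (Fin n) ℂ))
    (hK : ∀ u i, ∀ f ∈ K u, f ∈ Piece w u → X i * f ∈ K (u + w i)) {u : G}
    {f : MvPolynomial (Fin n) ℂ} (hf : f ∈ Piece w u) : f ∈ idealOf w K hK ↔ f ∈ K u := by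
  rw [mem_idealOf]
  constructor
  · intro h
    have := h u
    rwa [comp_of_mem w hf] at this
  · intro h v
    by_cases hv : v = u
    · subst hv
      rwa [comp_of_mem w hf]
    · rw [comp_of_mem_ne w hf hv]
      exact (K v).zero_mem

lemma idealOf_homog (w : Fin n → G) (K : G → Submodule ℂ (MvPolynomial (Fin n) ℂ))
    (hK : ∀ u i, ∀ f ∈ K u, f ∈ Piece w u → X i * f ∈ K (u + w i)) : IsHomog w (idealOf w K hK) := by
  intro f hf u
  rw [mem_idealOf_of_mem w K hK (comp_mem w u f)]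
  exact hf u

lemma vanIdeal_eq (w : Fin n → G) {r : ℕ} (a : Fin r → Fin n → ℂ)
    (I : Ideal (MvPolynomial (Fin n) ℂ)) (hI : IsHomog w I)
    (h : ∀ u, ∀ f ∈ Piece w u, (f ∈ I ↔ ∀ k, eval (a k) f = 0)) : I = vanIdeal w a := by
  apply le_antisymm
  · intro f hf
    refine mem_of_comp w _ f fun u => ?_
    apply Ideal.subset_span
    exact ⟨⟨u, comp_mem w u f⟩, (h u _ (comp_mem w u f)).mp (hI f hf u)⟩
  · rw [vanIdeal, Ideal.span_le]
    rintro f ⟨⟨u, hu⟩, hf⟩
    exact (h u f hu).mpr hf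

lemma vanIdeal_mem (w : Fin n → G) {r : ℕ} (a : Fin r → Fin n → ℂ) {f : MvPolynomial (Fin n) ℂ}
    (hf : f ∈ vanIdeal w a) (k : Fin r) : eval (a k) f = 0 := by
  have h : vanIdeal w a ≤ RingHom.ker (eval (a k)) := by
    rw [vanIdeal, Ideal.span_le]
    rintro g ⟨_, hg⟩
    exact hg k
  exact h hf

lemma mem_vanIdeal (w : Fin n → G) {r : ℕ} (a : Fin r → Fin n → ℂ) {u : G}
    {f : MvPolynomial (Fin n) ℂ} (hu : f ∈ Piece w u) :
    f ∈ vanIdeal w a ↔ ∀ k, eval (a k) f = 0 :=
  ⟨fun h k => vanIdeal_mem w a h k, fun h => Ideal.subset_span ⟨⟨u, hu⟩, h⟩⟩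

end Pool.Agent.P8H33.BV
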