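import Pool.Agent.P8H33.BV.Pair

set_option autoImplicit false

namespace Pool.Agent.P8H33.BV

open MvPolynomial

lemma vanIdeal_homog {n : ℕ} {G : Type} [AddCommGroup G] (w : Fin n → G) {r : ℕ}
    (a : Fin r → Fin n → ℂ) : IsHomog w (vanIdeal w a) := by
  have hK : ∀ (u : G) (i : Fin n), ∀ f ∈ (⨅ k, LinearMap.ker
      (aeval (a k) : MvPolynomial (Fin n) ℂ →ₐ[ℂ] ℂ).toLinearMap :
        Submodule ℂ (MvPolynomial (Fin n) ℂ)), f ∈ Piece w u → X i * f ∈
      (⨅ k, LinearMap.ker (aeval (a k) : MvPolynomial (Fin n) ℂ →ₐ[ℂ] ℂ).toLinearMap :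
        Submodule ℂ (MvPolynomial (Fin n) ℂ)) := by
    intro u i f hf _
    rw [Submodule.mem_iInf] at hf ⊢
    intro k
    have := hf k
    rw [LinearMap.mem_ker, AlgHom.toLinearMap_apply] at this ⊢
    rw [map_mul, this, mul_zero]
  have h := vanIdeal_eq w a (idealOf w _ hK) (idealOf_homog w _ hK) (fun u f hf => by
    rw [mem_idealOf_of_mem w _ hK hf, Submodule.mem_iInf]
    refine forall_congr' fun k => ?_
    rw [LinearMap.mem_ker, AlgHom.toLinearMap_apply, aeval_eq_eval])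
  rw [← h]
  exact idealOf_homog w _ hK

lemma van4 (a : Fin 4 → Fin 5 → ℂ) {u : ℤ × ℤ} {f : MvPolynomial (Fin 5) ℂ}
    (hf : f ∈ Piece w12 u) : f ∈ vanIdeal w12 a ↔ ev4 a f = 0 := by
  rw [mem_vanIdeal w12 a hf]
  constructor
  · intro h
    ext k
    rw [ev4_apply, h k]
    rfl
  · intro h k
    rw [← ev4_apply, h]
    rfl

/-- the ideal of `Z_ε` as a point of the multigraded Hilbert scheme -/
noncomputable def HZ (ε : ℂ) (h0 : ε ≠ 0) (h1 : ε ≠ 1) : Hilb w12 4 :=
  ⟨vanIdeal w12 (Z ε), vanIdeal_homog w12 _, fun u =>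
    hilb_of_ker w12 _ u (ev4 (Z ε)) (fun _ hf => van4 _ hf) (SOI_Z ε h0 h1 u)⟩

/-! ### The saturated ideal -/

noncomputable def pt (t : ℂ) : Fin 5 → ℂ := ![1, t, 1, 0, t]

noncomputable def Z1 : Fin 4 → Fin 5 → ℂ := ![pψ, pt (-1), pt 2, pt (1 / 2)]

lemma eval_φ (t : ℂ) (f : MvPolynomial (Fin 5) ℂ) : (φ f).eval t = eval (pt t) f := by
  have h : ((Polynomial.evalRingHom t).comp φ.toRingHom : MvPolynomial (Fin 5) ℂ →+* ℂ) =
      eval (pt t) := by
    apply MvPolynomial.ringHom_ext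
    · intro c
      simp [φ]
    · intro i
      fin_cases i <;> simp [φ, pt]
  exact DFunLike.congr_fun h f

lemma Cp_fac : Cp (-3 / 2) (-3 / 2) = (Polynomial.X - Polynomial.C (-1)) *
    ((Polynomial.X - Polynomial.C 2) * (Polynomial.X - Polynomial.C (1 / 2))) := by
  have h1 : (Polynomial.C (-3 / 2) : Polynomial ℂ) = - Polynomial.C 1 - Polynomial.C (1 / 2) := by
    rw [← Polynomial.C_neg, ← Polynomial.C_sub]
    norm_num
  have h2 : (Polynomial.C (1 / 2) : Polynomial ℂ) * 2 = 1 := by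
    rw [← map_ofNat Polynomial.C 2, ← Polynomial.C_mul]
    norm_num
  rw [Cp, h1, Polynomial.C_neg, Polynomial.C_1, map_ofNat Polynomial.C 2]
  linear_combination (-Polynomial.X - 1) * h2

lemma van_Z1 (f : MvPolynomial (Fin 5) ℂ) :
    (∀ k, eval (Z1 k) f = 0) ↔ evK (-3 / 2) (-3 / 2) f = 0 := by
  rw [evK_zero, Cp_fac]
  constructor
  · intro h
    have h0 := h 0
    have h1 := h 1
    have h2 := h 2
    have h3 := h 3
    simp only [Z1, Fin.isValue, Matrix.cons_val] at h0 h1 h2 h3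
    refine ⟨?_, h0⟩
    rw [← eval_φ] at h1 h2 h3
    have d1 := Polynomial.dvd_iff_isRoot.mpr h1
    have d2 := Polynomial.dvd_iff_isRoot.mpr h2
    have d3 := Polynomial.dvd_iff_isRoot.mpr h3
    have cop : ∀ a b : ℂ, a ≠ b → IsCoprime (Polynomial.X - Polynomial.C a)
        (Polynomial.X - Polynomial.C b) := fun a b hab =>
      Polynomial.isCoprime_X_sub_C_of_isUnit_sub (sub_ne_zero.mpr hab).isUnit
    refine IsCoprime.mul_dvd (IsCoprime.mul_right (cop _ _ ?_) (cop _ _ ?_)) d1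
      (IsCoprime.mul_dvd (cop _ _ ?_) d2 d3)
    · norm_num
    · norm_num
    · norm_num
  · rintro ⟨h, h0⟩ k
    have hr : ∀ t : ℂ, (Polynomial.X - Polynomial.C t) ∣ φ f → eval (pt t) f = 0 := by
      intro t ht
      rw [← eval_φ]
      exact Polynomial.dvd_iff_isRoot.mp ht
    fin_cases k
    · exact h0
    · exact hr _ ((Dvd.intro _ rfl).trans h)
    · exact hr _ (((Dvd.intro _ rfl).trans (Dvd.intro_left _ rfl)).trans h)
    · exact hr _ (((Dvd.intro_left _ rfl).trans (Dvd.intro_left _ rfl)).trans h)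

noncomputable def H1 : Hilb w12 4 :=
  ⟨vanIdeal w12 Z1, vanIdeal_homog w12 _, fun u =>
    hilb_of_ker w12 _ u (evK (-3 / 2) (-3 / 2)) (fun f hf => by
      rw [mem_vanIdeal w12 _ hf]
      exact van_Z1 f) (SOI_K _ _ u)⟩

/-! ### The nonsaturated ideal -/

noncomputable def θ : MvPolynomial (Fin 5) ℂ →ₐ[ℂ] Polynomial ℂ :=
  aeval ![1, Polynomial.X, 1, -1, 0]

lemma eval_θ (t : ℂ) (f : MvPolynomial (Fin 5) ℂ) : (θ f).eval t = eval (q t) f := by
  have h : ((Polynomial.evalRingHom t).comp θ.toRingHom : MvPolynomial (Fin 5) ℂ →+* ℂ) =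
      eval (q t) := by
    apply MvPolynomial.ringHom_ext
    · intro c
      simp [θ]
    · intro i
      fin_cases i <;> simp [θ, q]
  exact DFunLike.congr_fun h f

noncomputable def ev0a : MvPolynomial (Fin 5) ℂ →ₗ[ℂ] (Fin 4 → ℂ) :=
  LinearMap.pi ![(Polynomial.lcoeff ℂ 0).comp θ.toLinearMap,
    (Polynomial.lcoeff ℂ 1).comp θ.toLinearMap,
    (aeval (Z 0 2) : MvPolynomial (Fin 5) ℂ →ₐ[ℂ] ℂ).toLinearMap,
    (aeval (Z 0 3) : MvPolynomial (Fin 5) ℂ →ₐ[ℂ] ℂ).toLinearMap]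

lemma ev0a_eq (f : MvPolynomial (Fin 5) ℂ) :
    ev0a f = ![(θ f).coeff 0, (θ f).coeff 1, eval (Z 0 2) f, eval (Z 0 3) f] := by
  ext k
  fin_cases k
  · simp [ev0a]
  · simp [ev0a]
  · simp [ev0a, aeval_eq_eval]
  · simp [ev0a, aeval_eq_eval]

open Classical in
noncomputable def ev0 (u : ℤ × ℤ) : MvPolynomial (Fin 5) ℂ →ₗ[ℂ] (Fin 4 → ℂ) :=
  if u.2 = 0 then ev0a else ev4 (Z 0)

/-- forms in `x` only see the `x`-coordinates -/
lemma eval_x {i : ℕ} {f : MvPolynomial (Fin 5) ℂ} (hf : f ∈ Piece w12 ((i : ℕ), (0 : ℕ)))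
    (a b : Fin 5 → ℂ) (h0 : a 0 = b 0) (h1 : a 1 = b 1) : eval a f = eval b f := by
  have h : Piece w12 ((i : ℕ), (0 : ℕ)) ≤ LinearMap.ker
      ((aeval a : MvPolynomial (Fin 5) ℂ →ₐ[ℂ] ℂ).toLinearMap -
        (aeval b : MvPolynomial (Fin 5) ℂ →ₐ[ℂ] ℂ).toLinearMap) := by
    refine piece_span i 0 _ fun k l c d e h1' h2' => ?_
    obtain ⟨rfl, rfl, rfl⟩ : c = 0 ∧ d = 0 ∧ e = 0 := by omega
    rw [LinearMap.mem_ker, LinearMap.sub_apply, AlgHom.toLinearMap_apply,
      AlgHom.toLinearMap_apply, aeval_eq_eval, aeval_eq_eval, eval_mo, eval_mo, h0, h1]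
    simp
  have := h hf
  rw [LinearMap.mem_ker, LinearMap.sub_apply, AlgHom.toLinearMap_apply,
      AlgHom.toLinearMap_apply] at this
  simpa [aeval_eq_eval] using sub_eq_zero.mp this

lemma eval_q0 (f : MvPolynomial (Fin 5) ℂ) : eval (Z 0 1) f = (θ f).coeff 0 := by
  rw [Polynomial.coeff_zero_eq_eval_zero, eval_θ]
  rfl

lemma ev0_closed (u : ℤ × ℤ) (i : Fin 5) (f : MvPolynomial (Fin 5) ℂ)
    (hf : f ∈ LinearMap.ker (ev0 u)) (hu : f ∈ Piece w12 u) :
    X i * f ∈ LinearMap.ker (ev0 (u + w12 i)) := by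
  by_cases h0 : f = 0
  · rw [h0, mul_zero]
    exact Submodule.zero_mem _
  obtain ⟨a, b, rfl⟩ := eff hu h0
  rw [LinearMap.mem_ker] at hf ⊢
  rcases Nat.eq_zero_or_pos b with rfl | hb
  · rw [ev0, if_pos (by simp), ev0a_eq] at hf
    have c0 := congrFun hf 0
    have c1 := congrFun hf 1
    have c2 := congrFun hf 2
    have c3 := congrFun hf 3
    simp only [Fin.isValue, Matrix.cons_val, Pi.zero_apply] at c0 c1 c2 c3
    by_cases hi : i = 0 ∨ i = 1
    · rw [ev0, if_pos (by rcases hi with rfl | rfl <;> simp [w12]), ev0a_eq]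
      rcases hi with rfl | rfl
      · have e : θ (X 0 * f) = θ f := by rw [map_mul]; simp [θ]
        rw [e, c0, c1, map_mul, map_mul, c2, c3]
        ext k
        fin_cases k <;> simp
      · have e : θ (X 1 * f) = Polynomial.X * θ f := by rw [map_mul]; simp [θ]
        rw [e, Polynomial.coeff_X_mul_zero, show 1 = 0 + 1 by rfl, Polynomial.coeff_X_mul, c0,
          map_mul, map_mul, c2, c3]
        ext k
        fin_cases k <;> simp
    · have hw : w12 i = (0, 1) := by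
        fin_cases i
        · exact absurd (Or.inl rfl) hi
        · exact absurd (Or.inr rfl) hi
        · rfl
        · rfl
        · rfl
      rw [ev0, if_neg (by rw [hw]; simp), ev4_eq]
      have k1 : eval (Z 0 1) f = 0 := by rw [eval_q0, c0]
      have k0 : eval (Z 0 0) f = 0 := by
        rw [← k1]
        exact eval_x hu _ _ (by simp [Z, q]) (by simp [Z, q])
      rw [map_mul, map_mul, map_mul, map_mul, k0, k1, c2, c3]
      ext k
      fin_cases k <;> simp
  · rw [ev0, if_neg (by simp; omega)] at hf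
    rw [ev0, if_neg (by
      have : 0 ≤ (w12 i).2 := by fin_cases i <;> simp [w12]
      simp only [Prod.snd_add]
      omega)]
    ext k
    have := congrFun hf k
    rw [ev4_apply] at this ⊢
    rw [map_mul, this]
    simp

lemma SOI_0 (u : ℤ × ℤ) : SurjOrInj w12 u (ev0 u) := by
  revert u
  refine deg_cases _ ?_ ?_ ?_ ?_ ?_ ?_ ?_
  · exact fun u h => inj_of fun f hf _ => h f hf
  · refine inj_of fun f hf h => ?_
    obtain ⟨a, rfl⟩ := form00 hf
    rw [ev0, if_pos (by simp), ev0a_eq] at h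
    have := congrFun h 0
    simp [θ] at this
    rw [this, C_0]
  · refine inj_of fun f hf h => ?_
    obtain ⟨a, b, rfl⟩ := form10 hf
    rw [ev0, if_pos (by simp), ev0a_eq] at h
    have e0 := congrFun h 0
    have e1 := congrFun h 1
    simp [θ, Polynomial.coeff_C] at e0 e1
    rw [e0, e1]
    simp
  · refine inj_of fun f hf h => ?_
    obtain ⟨a, b, c, rfl⟩ := form20 hf
    rw [ev0, if_pos (by simp), ev0a_eq] at h
    have e0 := congrFun h 0
    have e1 := congrFun h 1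
    have e3 := congrFun h 3
    simp [θ, Polynomial.coeff_C, Z, Polynomial.coeff_X_pow] at e0 e1 e3
    rw [e0, e1, e3]
    simp
  · refine inj_of fun f hf h => ?_
    obtain ⟨a, b, c, rfl⟩ := form01 hf
    rw [ev0, if_neg (by simp)] at h
    have e0 := congrFun h 0
    have e1 := congrFun h 1
    have e3 := congrFun h 3
    rw [ev4_apply] at e0 e1 e3
    simp [Z, q] at e0 e1 e3
    have ha : a = 0 := by linear_combination (e0 + e1) / 2
    have hb : b = 0 := by linear_combination (e0 - e1) / 2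
    rw [ha, hb, e3]
    simp
  · intro i hi
    have hi0 : i ≠ 0 := by omega
    have hi1 : i - 1 ≠ 0 := by omega
    have hi2 : i - 2 ≠ 0 := by omega
    have hθ : ∀ a b : ℕ, θ (mo a b 0 0 0) = Polynomial.X ^ b := fun a b => by simp [θ, mo]
    rw [ev0, if_pos (by simp)]
    refine surj_of (e1 := mo i 0 0 0 0) (e2 := mo (i - 1) 1 0 0 0) (e3 := mo (i - 2) 2 0 0 0)
      (e4 := mo 0 i 0 0 0) (mo_mem' (by omega) (by omega)) (mo_mem' (by omega) (by omega))
      (mo_mem' (by omega) (by omega)) (mo_mem' (by omega) (by omega)) ?_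
    intro v
    refine ⟨v 0, v 1, v 2 - v 0 - v 1 - v 3, v 3, ?_⟩
    simp only [ev0a_eq, eval_mo, Z, q, hθ, Polynomial.coeff_X_pow]
    ext k
    fin_cases k
    · simp [hi0.symm]
    · simp [show ¬ (1 = i) by omega]
    · simp
      ring
    · simp [hi0, hi1, hi2]
  · intro i j hj h
    rw [ev0, if_neg (by simp; omega)]
    exact surjZ 0 i j hj h

noncomputable def J0 : Ideal (MvPolynomial (Fin 5) ℂ) :=
  idealOf w12 (fun u => LinearMap.ker (ev0 u)) ev0_closed

lemma mem_J0 {u : ℤ × ℤ} {f : MvPolynomial (Fin 5) ℂ} (hf : f ∈ Piece w12 u) :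
    f ∈ J0 ↔ ev0 u f = 0 := mem_idealOf_of_mem w12 _ ev0_closed hf

/-- the nonsaturated ideal as a point of the multigraded Hilbert scheme -/
noncomputable def H0 : Hilb w12 4 :=
  ⟨J0, idealOf_homog w12 _ ev0_closed, fun u =>
    hilb_of_ker w12 _ u (ev0 u) (fun _ hf => mem_J0 hf) (SOI_0 u)⟩

end Pool.Agent.P8H33.BV
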