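import Pool.Agent.P8H33.BV.Lim

set_option autoImplicit false

namespace Pool.Agent.P8H33.BV

open MvPolynomial

/-! ### points -/

lemma isPoint_of {a : Fin 5 → ℂ} (i j : Fin 5) (hi : i = 0 ∨ i = 1) (hj : j = 2 ∨ j = 3 ∨ j = 4)
    (h : a i * a j ≠ 0) : IsPoint B12 a := by
  refine ⟨X i * X j, ?_, by simpa using h⟩
  constructor
  · refine Ideal.mul_mem_right _ _ (Ideal.subset_span ?_)
    rcases hi with rfl | rfl <;> simp
  · refine Ideal.mul_mem_left _ _ (Ideal.subset_span ?_)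
    rcases hj with rfl | rfl | rfl <;> simp

lemma same12 {a b : Fin 5 → ℂ} (h : SamePoint w12 a b) : b 0 * a 1 = b 1 * a 0 ∧
    b 2 * a 3 = b 3 * a 2 ∧ b 2 * a 4 = b 4 * a 2 ∧ b 3 * a 4 = b 4 * a 3 := by
  obtain ⟨χ, hχ⟩ := h
  have e0 := hχ 0
  have e1 := hχ 1
  have e2 := hχ 2
  have e3 := hχ 3
  have e4 := hχ 4
  have k0 : w12 0 = (1, 0) := rfl
  have k1 : w12 1 = (1, 0) := rfl
  have k2 : w12 2 = (0, 1) := rfl
  have k3 : w12 3 = (0, 1) := rfl
  have k4 : w12 4 = (0, 1) := rfl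
  rw [k0] at e0
  rw [k1] at e1
  rw [k2] at e2
  rw [k3] at e3
  rw [k4] at e4
  rw [e0, e1, e2, e3, e4]
  refine ⟨by ring, by ring, by ring, by ring⟩

lemma point_Z (ε : ℂ) (k : Fin 4) : IsPoint B12 (Z ε k) := by
  fin_cases k
  · exact isPoint_of 0 2 (by simp) (by simp) (by simp [Z])
  · exact isPoint_of 0 2 (by simp) (by simp) (by simp [Z, q])
  · exact isPoint_of 0 2 (by simp) (by simp) (by simp [Z])
  · exact isPoint_of 1 4 (by simp) (by simp) (by simp [Z])

lemma dist_Z (ε : ℂ) (k l : Fin 4) (h : k ≠ l) : ¬ SamePoint w12 (Z ε k) (Z ε l) := by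
  intro hs
  obtain ⟨h1, h2, h3, h4⟩ := same12 hs
  fin_cases k <;> fin_cases l <;> simp [Z, q] at h h1 h2 h3 h4
  all_goals norm_num at h2

lemma point_Z1 (k : Fin 4) : IsPoint B12 (Z1 k) := by
  fin_cases k
  · exact isPoint_of 0 3 (by simp) (by simp) (by simp [Z1, pψ])
  · exact isPoint_of 0 2 (by simp) (by simp) (by simp [Z1, pt])
  · exact isPoint_of 0 2 (by simp) (by simp) (by simp [Z1, pt])
  · exact isPoint_of 0 2 (by simp) (by simp) (by simp [Z1, pt])

lemma dist_Z1 (k l : Fin 4) (h : k ≠ l) : ¬ SamePoint w12 (Z1 k) (Z1 l) := by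
  intro hs
  obtain ⟨h1, h2, h3, h4⟩ := same12 hs
  fin_cases k <;> fin_cases l <;> simp [Z1, pψ, pt] at h h1 h2 h3 h4
  all_goals norm_num at h1

lemma H1_slip : H1 ∈ Slip w12 B12 4 :=
  subset_closure ⟨Z1, point_Z1, dist_Z1, rfl⟩

/-! ### lifts -/

def Lift (u : ℤ × ℤ) (f : MvPolynomial (Fin 5) ℂ) : Prop :=
  ∃ (b : MvPolynomial (Fin 5) ℂ) (Q s : Polynomial ℂ), Q.eval 0 = 1 ∧ s.eval 0 = 0 ∧
    b ∈ Piece w12 u ∧ ∀ ε k, eval (Z ε k) (Q.eval ε • f - s.eval ε • b) = 0

lemma lift_zero (u : ℤ × ℤ) : Lift u 0 :=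
  ⟨0, 1, 0, by simp, by simp, Submodule.zero_mem _, fun ε k => by simp⟩

lemma lift (u : ℤ × ℤ) : ∀ f ∈ Piece w12 u, f ∈ J0 → Lift u f := by
  revert u
  refine deg_cases _ ?_ ?_ ?_ ?_ ?_ ?_ ?_
  · intro u h f hf _
    rw [h f hf]
    exact lift_zero u
  · intro f hf hJ
    rw [mem_J0 hf] at hJ
    obtain ⟨a, rfl⟩ := form00 hf
    rw [ev0, if_pos (by simp), ev0a_eq] at hJ
    have := congrFun hJ 0
    simp [θ] at this
    rw [this, C_0]
    exact lift_zero _
  · intro f hf hJ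
    rw [mem_J0 hf] at hJ
    obtain ⟨a, b, rfl⟩ := form10 hf
    rw [ev0, if_pos (by simp), ev0a_eq] at hJ
    have e0 := congrFun hJ 0
    have e1 := congrFun hJ 1
    simp [θ, Polynomial.coeff_C] at e0 e1
    rw [e0, e1]
    simpa using lift_zero _
  · intro f hf hJ
    rw [mem_J0 hf] at hJ
    obtain ⟨a, b, c, rfl⟩ := form20 hf
    rw [ev0, if_pos (by simp), ev0a_eq] at hJ
    have e0 := congrFun hJ 0
    have e1 := congrFun hJ 1
    have e3 := congrFun hJ 3
    simp [θ, Polynomial.coeff_C, Z, Polynomial.coeff_X_pow] at e0 e1 e3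
    rw [e0, e1, e3]
    simpa using lift_zero _
  · intro f hf hJ
    rw [mem_J0 hf] at hJ
    obtain ⟨a, b, c, rfl⟩ := form01 hf
    rw [ev0, if_neg (by simp)] at hJ
    have e0 := congrFun hJ 0
    have e1 := congrFun hJ 1
    have e3 := congrFun hJ 3
    rw [ev4_apply] at e0 e1 e3
    simp [Z, q] at e0 e1 e3
    have ha : a = 0 := by linear_combination (e0 + e1) / 2
    have hb : b = 0 := by linear_combination (e0 - e1) / 2
    rw [ha, hb, e3]
    simpa using lift_zero _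
  · intro i hi f hf hJ
    rw [mem_J0 hf] at hJ
    have hi0 : i ≠ 0 := by omega
    have hi1 : i - 1 ≠ 0 := by omega
    have hi2 : i - 2 ≠ 0 := by omega
    rw [ev0, if_pos (by simp), ev0a_eq] at hJ
    have c0 := congrFun hJ 0
    have c1 := congrFun hJ 1
    have c2 := congrFun hJ 2
    have c3 := congrFun hJ 3
    simp only [Fin.isValue, Matrix.cons_val, Pi.zero_apply] at c0 c1 c2 c3
    have hX : Polynomial.X * (θ f).divX = θ f := by
      have := Polynomial.X_mul_divX_add (θ f)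
      rwa [c0, Polynomial.C_0, add_zero] at this
    refine ⟨mo (i - 1) 1 0 0 0 - mo (i - 2) 2 0 0 0, 1 - Polynomial.X, (θ f).divX, by simp, ?_,
      Submodule.sub_mem _ (mo_mem' (by omega) (by omega)) (mo_mem' (by omega) (by omega)), ?_⟩
    · rw [← Polynomial.coeff_zero_eq_eval_zero, Polynomial.coeff_divX, zero_add, c1]
    · intro ε k
      rw [smul_eq_C_mul, smul_eq_C_mul, map_sub, map_mul, map_mul, map_sub, eval_C, eval_C,
        eval_mo, eval_mo]
      fin_cases k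
      · have k0 : eval (Z ε 0) f = 0 := by
          rw [← c0, ← eval_q0]
          exact eval_x hf _ _ (by simp [Z, q]) (by simp [Z, q])
        show _ * eval (Z ε 0) f - _ = 0
        rw [k0]
        simp [Z]
      · show _ * eval (q ε) f - _ = 0
        rw [← eval_θ]
        have := congrArg (Polynomial.eval ε) hX
        rw [Polynomial.eval_mul, Polynomial.eval_X] at this
        rw [← this]
        simp [Z, q]
        ring
      · have k2 : eval (Z ε 2) f = 0 := by
          rw [← c2]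
          rfl
        show _ * eval (Z ε 2) f - _ = 0
        rw [k2]
        simp [Z]
      · have k3 : eval (Z ε 3) f = 0 := by
          rw [← c3]
          rfl
        show _ * eval (Z ε 3) f - _ = 0
        rw [k3]
        simp [Z, hi1, hi2]
  · intro i j hj h f hf hJ
    have hj0 : j ≠ 0 := by omega
    have h4 : ((0 : ℂ) ^ i * 0 ^ (j - 1)) = 0 := by
      rcases h with h | h
      · rw [zero_pow (by omega), zero_mul]
      · rw [zero_pow (by omega : j - 1 ≠ 0), mul_zero]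
    rw [mem_J0 hf, ev0, if_neg (by simp; omega)] at hJ
    have c : ∀ k, eval (Z 0 k) f = 0 := fun k => by
      rw [← ev4_apply, hJ]
      rfl
    refine ⟨(1 / 2 : ℂ) • (mo i 0 j 0 0 - mo i 0 (j - 1) 1 0 - mo i 0 (j - 1) 0 1), 1, θ f,
      by simp, ?_, Submodule.smul_mem _ _ (Submodule.sub_mem _ (Submodule.sub_mem _
        (mo_mem' (by omega) (by omega)) (mo_mem' (by omega) (by omega)))
        (mo_mem' (by omega) (by omega))), ?_⟩
    · rw [← Polynomial.coeff_zero_eq_eval_zero, ← eval_q0, c]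
    · intro ε k
      rw [smul_eq_C_mul, smul_eq_C_mul, smul_eq_C_mul, map_sub, map_mul, map_mul, map_mul,
        map_sub, map_sub, eval_C, eval_C, eval_C, eval_mo, eval_mo, eval_mo]
      fin_cases k
      · have k0 : eval (Z ε 0) f = 0 := c 0
        show _ * eval (Z ε 0) f - _ = 0
        rw [k0]
        simp [Z]
      · show _ * eval (q ε) f - _ = 0
        rw [← eval_θ]
        simp [Z, q]
        ring
      · have k2 : eval (Z ε 2) f = 0 := c 2
        show _ * eval (Z ε 2) f - _ = 0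
        rw [k2]
        simp [Z]
      · have k3 : eval (Z ε 3) f = 0 := c 3
        show _ * eval (Z ε 3) f - _ = 0
        rw [k3]
        simp [Z, hj0, h4]

/-! ### the limit -/

open Classical in
/-- the family `ε ↦ I(Z_ε)` -/
noncomputable def γ (ε : ℂ) : Hilb w12 4 :=
  if h : ε ≠ 0 ∧ ε ≠ 1 then HZ ε h.1 h.2 else H0

open Filter Topology in
lemma tendsto_γ : Tendsto γ cofinite (𝓝 H0) := by
  refine TopologicalSpace.tendsto_nhds_generateFrom_iff.mpr ?_
  rintro _ ⟨k, u, P, rfl⟩ ⟨f, hf, hP⟩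
  choose b Q s hQ hs hb hZ using fun i => lift (u i) (f i) (hf i).2 (hf i).1
  set R : Polynomial ℂ := aeval (fun p : Fin k × (Fin 5 →₀ ℕ) =>
    Q p.1 * Polynomial.C (coeff p.2 (f p.1)) - s p.1 * Polynomial.C (coeff p.2 (b p.1))) P with hR
  have hRe : ∀ ε, R.eval ε = eval (fun p : Fin k × (Fin 5 →₀ ℕ) =>
      coeff p.2 ((Q p.1).eval ε • f p.1 - (s p.1).eval ε • b p.1)) P := by
    intro ε
    have h := MvPolynomial.ringHom_ext (A := ℂ) (f := ((Polynomial.evalRingHom ε).comp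
      (aeval (R := ℂ) (fun p : Fin k × (Fin 5 →₀ ℕ) =>
        Q p.1 * Polynomial.C (coeff p.2 (f p.1)) -
          s p.1 * Polynomial.C (coeff p.2 (b p.1)))).toRingHom :
        MvPolynomial (Fin k × (Fin 5 →₀ ℕ)) ℂ →+* ℂ))
      (g := eval (fun p : Fin k × (Fin 5 →₀ ℕ) =>
      coeff p.2 ((Q p.1).eval ε • f p.1 - (s p.1).eval ε • b p.1)))
      (fun r => by simp) (fun p => by simp)
    exact DFunLike.congr_fun h P
  have hR0 : R ≠ 0 := by
    intro h0
    apply hP
    have h1 := hRe 0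
    rw [h0, Polynomial.eval_zero] at h1
    rw [h1]
    congr 2
    ext p
    rw [hQ, hs]
    simp
  have hfin : {ε : ℂ | R.IsRoot ε}.Finite := Polynomial.finite_setOfPred_isRoot hR0
  have hfin2 : ({ε : ℂ | R.IsRoot ε} ∪ {0, 1}).Finite := hfin.union (Set.toFinite _)
  rw [mem_cofinite]
  refine hfin2.subset ?_
  intro ε hε
  by_contra hc
  apply hε
  rw [Set.mem_union, not_or] at hc
  obtain ⟨hc1, hc2⟩ := hc
  rw [Set.mem_insert_iff, Set.mem_singleton_iff, not_or] at hc2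
  show γ ε ∈ basicOpen w12 4 u P
  rw [γ, dif_pos (show ε ≠ 0 ∧ ε ≠ 1 from hc2)]
  have hm : ∀ i, (Q i).eval ε • f i - (s i).eval ε • b i ∈ Piece w12 (u i) := fun i =>
    Submodule.sub_mem _ (Submodule.smul_mem _ _ (hf i).2) (Submodule.smul_mem _ _ (hb i))
  refine ⟨fun i => (Q i).eval ε • f i - (s i).eval ε • b i, fun i => ⟨?_, hm i⟩, ?_⟩
  · exact (mem_vanIdeal w12 (Z ε) (hm i)).mpr (hZ i ε)
  · rw [← hRe]
    exact hc1

lemma H0_slip : H0 ∈ Slip w12 B12 4 := by
  refine mem_closure_of_tendsto tendsto_γ ?_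
  have hfin2 : ({0, 1} : Set ℂ).Finite := Set.toFinite _
  rw [Filter.eventually_cofinite]
  refine hfin2.subset ?_
  intro ε hε
  by_contra hc
  apply hε
  rw [Set.mem_insert_iff, Set.mem_singleton_iff, not_or] at hc
  rw [γ, dif_pos (show ε ≠ 0 ∧ ε ≠ 1 from hc)]
  exact ⟨Z ε, point_Z ε, dist_Z ε, rfl⟩

end Pool.Agent.P8H33.BV
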