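import Pool.Agent.P8H33.BV.Gen

set_option autoImplicit false

namespace Pool.Agent.P8H33.BV

open MvPolynomial

lemma weight12 (d : Fin 5 →₀ ℕ) :
    Finsupp.weight w12 d = (((d 0 + d 1 : ℕ) : ℤ), ((d 2 + d 3 + d 4 : ℕ) : ℤ)) := by
  rw [Finsupp.weight_apply, Finsupp.sum_fintype _ _ (by simp)]
  rw [Fin.sum_univ_five]
  simp [w12]

lemma mem12 (f : MvPolynomial (Fin 5) ℂ) (u : ℤ × ℤ) :
    f ∈ Piece w12 u ↔ ∀ d, coeff d f ≠ 0 →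
      ((d 0 + d 1 : ℕ) : ℤ) = u.1 ∧ ((d 2 + d 3 + d 4 : ℕ) : ℤ) = u.2 := by
  rw [mem_weightedHomogeneousSubmodule]
  constructor
  · intro h d hd
    have := h hd
    rw [weight12] at this
    exact Prod.ext_iff.mp this
  · intro h d hd
    rw [weight12]
    exact Prod.ext_iff.mpr (h d hd)

/-- monomials -/
noncomputable def mo (a b c d e : ℕ) : MvPolynomial (Fin 5) ℂ :=
  X 0 ^ a * X 1 ^ b * X 2 ^ c * X 3 ^ d * X 4 ^ e

lemma X_mem (i : Fin 5) : X i ∈ Piece w12 (w12 i) :=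
  (mem_weightedHomogeneousSubmodule ℂ _ _ _).mpr (isWeightedHomogeneous_X ℂ w12 i)

lemma mul_mem' {f g : MvPolynomial (Fin 5) ℂ} {u v : ℤ × ℤ} (hf : f ∈ Piece w12 u)
    (hg : g ∈ Piece w12 v) : f * g ∈ Piece w12 (u + v) :=
  (mem_weightedHomogeneousSubmodule ℂ _ _ _).mpr
    (((mem_weightedHomogeneousSubmodule ℂ _ _ _).mp hf).mul
      ((mem_weightedHomogeneousSubmodule ℂ _ _ _).mp hg))

lemma pow_mem' {f : MvPolynomial (Fin 5) ℂ} {u : ℤ × ℤ} (hf : f ∈ Piece w12 u) (k : ℕ) :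
    f ^ k ∈ Piece w12 (k • u) :=
  (mem_weightedHomogeneousSubmodule ℂ _ _ _).mpr
    (((mem_weightedHomogeneousSubmodule ℂ _ _ _).mp hf).pow k)

lemma mo_mem (a b c d e : ℕ) :
    mo a b c d e ∈ Piece w12 (((a + b : ℕ) : ℤ), ((c + d + e : ℕ) : ℤ)) := by
  have h := mul_mem' (mul_mem' (mul_mem' (mul_mem' (pow_mem' (X_mem 0) a) (pow_mem' (X_mem 1) b))
    (pow_mem' (X_mem 2) c)) (pow_mem' (X_mem 3) d)) (pow_mem' (X_mem 4) e)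
  have h2 : a • w12 0 + b • w12 1 + c • w12 2 + d • w12 3 + e • w12 4 =
      (((a + b : ℕ) : ℤ), ((c + d + e : ℕ) : ℤ)) := by
    simp [w12]
  rw [h2] at h
  exact h

lemma mo_mem' {a b c d e : ℕ} {i j : ℕ} (h1 : a + b = i) (h2 : c + d + e = j) :
    mo a b c d e ∈ Piece w12 ((i : ℤ), (j : ℤ)) := by
  have := mo_mem a b c d e
  rwa [h1, h2] at this

lemma monomial_eq_mo (d : Fin 5 →₀ ℕ) (c : ℂ) :
    monomial d c = c • mo (d 0) (d 1) (d 2) (d 3) (d 4) := by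
  rw [monomial_eq, Finsupp.prod_fintype _ _ (by simp), Fin.prod_univ_five, mo, smul_eq_C_mul]

/-- `S_(i,j)` is spanned by the monomials -/
lemma piece_span (i j : ℕ) (N : Submodule ℂ (MvPolynomial (Fin 5) ℂ))
    (h : ∀ a b c d e : ℕ, a + b = i → c + d + e = j → mo a b c d e ∈ N) :
    Piece w12 ((i : ℤ), (j : ℤ)) ≤ N := by
  intro f hf
  rw [mem12] at hf
  rw [f.as_sum]
  refine N.sum_mem fun d hd => ?_
  rw [monomial_eq_mo]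
  refine N.smul_mem _ ?_
  obtain ⟨h1, h2⟩ := hf d (mem_support_iff.mp hd)
  dsimp only at h1 h2
  exact h _ _ _ _ _ (by exact_mod_cast h1) (by exact_mod_cast h2)

/-- only effective degrees matter -/
lemma eff {f : MvPolynomial (Fin 5) ℂ} {u : ℤ × ℤ} (hf : f ∈ Piece w12 u) (h0 : f ≠ 0) :
    ∃ i j : ℕ, u = ((i : ℤ), (j : ℤ)) := by
  obtain ⟨d, hd⟩ := ne_zero_iff.mp h0
  obtain ⟨h1, h2⟩ := (mem12 f u).mp hf d hd
  exact ⟨d 0 + d 1, d 2 + d 3 + d 4, Prod.ext h1.symm h2.symm⟩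

lemma eff' (u : ℤ × ℤ) : (∃ i j : ℕ, u = ((i : ℤ), (j : ℤ))) ∨ ∀ f ∈ Piece w12 u, f = 0 := by
  by_cases h : ∃ f ∈ Piece w12 u, f ≠ 0
  · obtain ⟨f, hf, h0⟩ := h
    exact Or.inl (eff hf h0)
  · push Not at h
    exact Or.inr h

instance fin12 (u : ℤ × ℤ) : FiniteDimensional ℂ (Piece w12 u) := by
  rcases eff' u with ⟨i, j, rfl⟩ | h
  · set T : Set (MvPolynomial (Fin 5) ℂ) :=
      (fun p : Fin (i+1) × Fin (i+1) × Fin (j+1) × Fin (j+1) × Fin (j+1) =>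
        mo p.1 p.2.1 p.2.2.1 p.2.2.2.1 p.2.2.2.2) '' Set.univ with hT
    have h1 : Piece w12 ((i : ℤ), (j : ℤ)) ≤ Submodule.span ℂ T := by
      apply piece_span
      intro a b c d e h1 h2
      apply Submodule.subset_span
      exact ⟨(⟨a, by omega⟩, ⟨b, by omega⟩, ⟨c, by omega⟩, ⟨d, by omega⟩, ⟨e, by omega⟩),
        trivial, rfl⟩
    have h2 : FiniteDimensional ℂ (Submodule.span ℂ T) :=
      FiniteDimensional.span_of_finite ℂ (Set.finite_univ.image _)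
    exact Submodule.finiteDimensional_of_le h1
  · have : Piece w12 u = ⊥ := by
      rw [eq_bot_iff]
      exact fun f hf => (Submodule.mem_bot ℂ).mpr (h f hf)
    rw [this]
    infer_instance

/-- Explicit forms in small degrees. -/
lemma form00 {f : MvPolynomial (Fin 5) ℂ} (hf : f ∈ Piece w12 ((0 : ℕ), (0 : ℕ))) :
    ∃ a : ℂ, f = C a := by
  have h := piece_span 0 0 (Submodule.span ℂ {1}) (fun a b c d e h1 h2 => by
    obtain ⟨rfl, rfl⟩ : a = 0 ∧ b = 0 := by omega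
    obtain ⟨rfl, rfl, rfl⟩ : c = 0 ∧ d = 0 ∧ e = 0 := by omega
    apply Submodule.subset_span
    simp [mo])
  obtain ⟨a, ha⟩ := Submodule.mem_span_singleton.mp (h hf)
  exact ⟨a, by rw [← ha, smul_eq_C_mul, mul_one]⟩

lemma form10 {f : MvPolynomial (Fin 5) ℂ} (hf : f ∈ Piece w12 ((1 : ℕ), (0 : ℕ))) :
    ∃ a b : ℂ, f = C a * X 0 + C b * X 1 := by
  have h := piece_span 1 0 (Submodule.span ℂ {X 0, X 1}) (fun a b c d e h1 h2 => by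
    obtain ⟨rfl, rfl, rfl⟩ : c = 0 ∧ d = 0 ∧ e = 0 := by omega
    apply Submodule.subset_span
    obtain ⟨rfl, rfl⟩ | ⟨rfl, rfl⟩ : (a = 1 ∧ b = 0) ∨ (a = 0 ∧ b = 1) := by omega
    · simp [mo]
    · simp [mo])
  obtain ⟨a, b, hab⟩ := Submodule.mem_span_pair.mp (h hf)
  exact ⟨a, b, by rw [← hab, smul_eq_C_mul, smul_eq_C_mul]⟩

lemma form20 {f : MvPolynomial (Fin 5) ℂ} (hf : f ∈ Piece w12 ((2 : ℕ), (0 : ℕ))) :
    ∃ a b c : ℂ, f = C a * X 0 ^ 2 + C b * (X 0 * X 1) + C c * X 1 ^ 2 := by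
  have h := piece_span 2 0 (Submodule.span ℂ {X 0 ^ 2, X 0 * X 1, X 1 ^ 2})
    (fun a b c d e h1 h2 => by
      obtain ⟨rfl, rfl, rfl⟩ : c = 0 ∧ d = 0 ∧ e = 0 := by omega
      apply Submodule.subset_span
      obtain ⟨rfl, rfl⟩ | ⟨rfl, rfl⟩ | ⟨rfl, rfl⟩ :
        (a = 2 ∧ b = 0) ∨ (a = 1 ∧ b = 1) ∨ (a = 0 ∧ b = 2) := by omega
      · simp [mo]
      · simp [mo]
      · simp [mo])
  obtain ⟨a, b, c, hab⟩ := Submodule.mem_span_triple.mp (h hf)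
  exact ⟨a, b, c, by rw [← hab, smul_eq_C_mul, smul_eq_C_mul, smul_eq_C_mul]⟩

lemma form01 {f : MvPolynomial (Fin 5) ℂ} (hf : f ∈ Piece w12 ((0 : ℕ), (1 : ℕ))) :
    ∃ a b c : ℂ, f = C a * X 2 + C b * X 3 + C c * X 4 := by
  have h := piece_span 0 1 (Submodule.span ℂ {X 2, X 3, X 4})
    (fun a b c d e h1 h2 => by
      obtain ⟨rfl, rfl⟩ : a = 0 ∧ b = 0 := by omega
      apply Submodule.subset_span
      obtain ⟨rfl, rfl, rfl⟩ | ⟨rfl, rfl, rfl⟩ | ⟨rfl, rfl, rfl⟩ :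
        (c = 1 ∧ d = 0 ∧ e = 0) ∨ (c = 0 ∧ d = 1 ∧ e = 0) ∨ (c = 0 ∧ d = 0 ∧ e = 1) := by omega
      · simp [mo]
      · simp [mo]
      · simp [mo])
  obtain ⟨a, b, c, hab⟩ := Submodule.mem_span_triple.mp (h hf)
  exact ⟨a, b, c, by rw [← hab, smul_eq_C_mul, smul_eq_C_mul, smul_eq_C_mul]⟩

/-- all forms given by a property closed under linear combinations of monomials -/
lemma form30 {f : MvPolynomial (Fin 5) ℂ} (hf : f ∈ Piece w12 ((3 : ℕ), (0 : ℕ))) :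
    ∃ a b c d : ℂ, f = C a * X 0 ^ 3 + C b * (X 0 ^ 2 * X 1) + C c * (X 0 * X 1 ^ 2)
      + C d * X 1 ^ 3 := by
  have h := piece_span 3 0 (Submodule.span ℂ {X 0 ^ 3, X 0 ^ 2 * X 1, X 0 * X 1 ^ 2, X 1 ^ 3})
    (fun a b c d e h1 h2 => by
      obtain ⟨rfl, rfl, rfl⟩ : c = 0 ∧ d = 0 ∧ e = 0 := by omega
      apply Submodule.subset_span
      obtain ⟨rfl, rfl⟩ | ⟨rfl, rfl⟩ | ⟨rfl, rfl⟩ | ⟨rfl, rfl⟩ :
        (a = 3 ∧ b = 0) ∨ (a = 2 ∧ b = 1) ∨ (a = 1 ∧ b = 2) ∨ (a = 0 ∧ b = 3) := by omega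
      · simp [mo]
      · simp [mo]
      · simp [mo]
      · simp [mo])
  obtain ⟨a, g, hg, hab⟩ := Submodule.mem_span_insert.mp (h hf)
  obtain ⟨b, c, d, hg⟩ := Submodule.mem_span_triple.mp hg
  exact ⟨a, b, c, d, by rw [hab, ← hg]; simp only [smul_eq_C_mul]; ring⟩

lemma form02 {f : MvPolynomial (Fin 5) ℂ} (hf : f ∈ Piece w12 ((0 : ℕ), (2 : ℕ))) :
    ∃ a b c p q r : ℂ, f = C a * X 2 ^ 2 + C b * X 3 ^ 2 + C c * X 4 ^ 2 + C p * (X 2 * X 3)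
      + C q * (X 2 * X 4) + C r * (X 3 * X 4) := by
  have h := piece_span 0 2 (Submodule.span ℂ {X 2 ^ 2, X 3 ^ 2, X 4 ^ 2, X 2 * X 3, X 2 * X 4,
    X 3 * X 4})
    (fun a b c d e h1 h2 => by
      obtain ⟨rfl, rfl⟩ : a = 0 ∧ b = 0 := by omega
      apply Submodule.subset_span
      obtain ⟨rfl, rfl, rfl⟩ | ⟨rfl, rfl, rfl⟩ | ⟨rfl, rfl, rfl⟩ | ⟨rfl, rfl, rfl⟩ |
        ⟨rfl, rfl, rfl⟩ | ⟨rfl, rfl, rfl⟩ :
        (c = 2 ∧ d = 0 ∧ e = 0) ∨ (c = 0 ∧ d = 2 ∧ e = 0) ∨ (c = 0 ∧ d = 0 ∧ e = 2) ∨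
        (c = 1 ∧ d = 1 ∧ e = 0) ∨ (c = 1 ∧ d = 0 ∧ e = 1) ∨ (c = 0 ∧ d = 1 ∧ e = 1) := by omega
      all_goals simp [mo])
  obtain ⟨a, g, hg, hab⟩ := Submodule.mem_span_insert.mp (h hf)
  obtain ⟨b, g', hg', hab'⟩ := Submodule.mem_span_insert.mp hg
  obtain ⟨c, g'', hg'', hab''⟩ := Submodule.mem_span_insert.mp hg'
  obtain ⟨p, q, r, hg⟩ := Submodule.mem_span_triple.mp hg''
  exact ⟨a, b, c, p, q, r, by rw [hab, hab', hab'', ← hg]; simp only [smul_eq_C_mul]; ring⟩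

lemma form21 {f : MvPolynomial (Fin 5) ℂ} (hf : f ∈ Piece w12 ((2 : ℕ), (1 : ℕ))) :
    ∃ a0 a1 a2 b0 b1 b2 c0 c1 c2 : ℂ, f = C a0 * (X 0 ^ 2 * X 2) + C a1 * (X 0 ^ 2 * X 3)
      + C a2 * (X 0 ^ 2 * X 4) + C b0 * (X 0 * X 1 * X 2) + C b1 * (X 0 * X 1 * X 3)
      + C b2 * (X 0 * X 1 * X 4) + C c0 * (X 1 ^ 2 * X 2) + C c1 * (X 1 ^ 2 * X 3)
      + C c2 * (X 1 ^ 2 * X 4) := by
  have h := piece_span 2 1 (Submodule.span ℂ {X 0 ^ 2 * X 2, X 0 ^ 2 * X 3, X 0 ^ 2 * X 4,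
    X 0 * X 1 * X 2, X 0 * X 1 * X 3, X 0 * X 1 * X 4, X 1 ^ 2 * X 2, X 1 ^ 2 * X 3,
    X 1 ^ 2 * X 4})
    (fun a b c d e h1 h2 => by
      apply Submodule.subset_span
      obtain ⟨rfl, rfl⟩ | ⟨rfl, rfl⟩ | ⟨rfl, rfl⟩ :
        (a = 2 ∧ b = 0) ∨ (a = 1 ∧ b = 1) ∨ (a = 0 ∧ b = 2) := by omega
      all_goals
        obtain ⟨rfl, rfl, rfl⟩ | ⟨rfl, rfl, rfl⟩ | ⟨rfl, rfl, rfl⟩ :
          (c = 1 ∧ d = 0 ∧ e = 0) ∨ (c = 0 ∧ d = 1 ∧ e = 0) ∨ (c = 0 ∧ d = 0 ∧ e = 1) := by omega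
      all_goals simp [mo])
  obtain ⟨a0, g, hg, e1⟩ := Submodule.mem_span_insert.mp (h hf)
  obtain ⟨a1, g, hg, e2⟩ := Submodule.mem_span_insert.mp hg
  obtain ⟨a2, g, hg, e3⟩ := Submodule.mem_span_insert.mp hg
  obtain ⟨b0, g, hg, e4⟩ := Submodule.mem_span_insert.mp hg
  obtain ⟨b1, g, hg, e5⟩ := Submodule.mem_span_insert.mp hg
  obtain ⟨b2, g, hg, e6⟩ := Submodule.mem_span_insert.mp hg
  obtain ⟨c0, c1, c2, hg⟩ := Submodule.mem_span_triple.mp hg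
  exact ⟨a0, a1, a2, b0, b1, b2, c0, c1, c2, by
    rw [e1, e2, e3, e4, e5, e6, ← hg]; simp only [smul_eq_C_mul]; ring⟩

/-- The coefficient of `x_0^i y_0^j` as a value. -/
lemma coeff_eq_eval {f : MvPolynomial (Fin 5) ℂ} {i j : ℕ} (hf : f ∈ Piece w12 ((i : ℤ), (j : ℤ))) :
    coeff (Finsupp.single 0 i + Finsupp.single 2 j) f = eval ![1, 0, 1, 0, 0] f := by
  rw [eval_eq', Finset.sum_eq_single (Finsupp.single 0 i + Finsupp.single 2 j)]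
  · rw [Fin.prod_univ_five]
    simp
  · intro d hd hne
    rw [Fin.prod_univ_five]
    have hd' := (mem12 f _).mp hf d (mem_support_iff.mp hd)
    have h : d 1 ≠ 0 ∨ d 3 ≠ 0 ∨ d 4 ≠ 0 := by
      by_contra h
      push Not at h
      obtain ⟨h1, h3, h4⟩ := h
      apply hne
      obtain ⟨h5, h6⟩ := hd'
      dsimp only at h5 h6
      ext k
      fin_cases k <;> simp <;> omega
    rcases h with h | h | h <;> simp [h]
  · intro h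
    rw [notMem_support_iff.mp h, zero_mul]

end Pool.Agent.P8H33.BV
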