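import Pool.Agent.P8H33.BV.Sat2
import Pool.Agent.P8H33.BV.Act

set_option autoImplicit false

namespace Pool.Agent.P8H33.BV

open MvPolynomial

lemma act_smul_right {n : ℕ} (g F : MvPolynomial (Fin n) ℂ) (c : ℂ) :
    act g (c • F) = c • act g F := by
  rw [act, act, Finset.smul_sum]
  refine Finset.sum_congr rfl fun a _ => ?_
  rw [map_smul, smul_comm]

lemma act_comp (g F : MvPolynomial (Fin 5) ℂ)
    (h : ∀ u, act (weightedHomogeneousComponent w12 u g) F = 0) : act g F = 0 := by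
  obtain ⟨s, hs⟩ := eq_sum_comp w12 g
  rw [hs, act_sum]
  exact Finset.sum_eq_zero fun u _ => h u

/-- the point `p² q²` of `T_(2,2)` -/
noncomputable def LL (a : Fin 5 → ℂ) : MvPolynomial (Fin 5) ℂ := fx a ^ 2 * fy a ^ 2

lemma act_LL (a : Fin 5 → ℂ) {u : ℤ × ℤ} (g : MvPolynomial (Fin 5) ℂ) (hg : g ∈ Piece w12 u)
    (h : eval a g = 0) : act g (LL a) = 0 := by
  rcases eff' u with ⟨i, j, rfl⟩ | h0
  · rw [LL, act_pow a i j 2 2 g hg, h, mul_zero, C_0, zero_mul, zero_mul]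
  · rw [h0 g hg, act_zero]

lemma act_LL' (a : Fin 5 → ℂ) (g : MvPolynomial (Fin 5) ℂ)
    (hg : g ∈ Piece w12 ((2 : ℕ), (2 : ℕ))) : act g (LL a) = C (4 * eval a g) := by
  rw [LL, act_pow a 2 2 2 2 g hg]
  have : (Nat.descFactorial 2 2 : ℂ) = 2 := by norm_num [Nat.descFactorial]
  rw [this, Nat.sub_self, pow_zero, pow_zero, mul_one, mul_one]
  congr 1
  ring

/-- the four points in the definition of `F12` -/
noncomputable def PF : Fin 4 → Fin 5 → ℂ :=
  ![![1, 0, 1, 0, 0], ![1, 0, 0, 1, 0], ![0, 1, 0, 0, 1], ![1, 1, 1, 0, 1]]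

lemma F12_eq : F12 = LL (PF 0) + LL (PF 1) + LL (PF 2) + LL (PF 3) := by
  simp [F12, LL, fx, fy, PF]
  ring

lemma pair_F (g : MvPolynomial (Fin 5) ℂ) (hg : g ∈ Piece w12 ((2 : ℕ), (2 : ℕ))) :
    act g F12 = C (4 * (eval (PF 0) g + eval (PF 1) g + eval (PF 2) g + eval (PF 3) g)) := by
  rw [F12_eq, act_add_right, act_add_right, act_add_right, act_LL' _ g hg, act_LL' _ g hg,
    act_LL' _ g hg, act_LL' _ g hg, ← C_add, ← C_add, ← C_add]
  congr 1
  ring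

lemma pair_mul (J : Ideal (MvPolynomial (Fin 5) ℂ)) (hA : ∀ g ∈ J, act g F12 = 0)
    {g h : MvPolynomial (Fin 5) ℂ} {u v : ℤ × ℤ} (huv : u + v = (((2 : ℕ) : ℤ), ((2 : ℕ) : ℤ)))
    (hgJ : g ∈ J) (hg : g ∈ Piece w12 u) (hh : h ∈ Piece w12 v) :
    eval (PF 0) g * eval (PF 0) h + eval (PF 1) g * eval (PF 1) h + eval (PF 2) g * eval (PF 2) h +
      eval (PF 3) g * eval (PF 3) h = 0 := by
  have h1 := hA _ (J.mul_mem_right h hgJ)
  rw [pair_F _ (huv ▸ mul_mem' hg hh)] at h1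
  have h2 := (C_eq_zero (σ := Fin 5) (R := ℂ)).mp h1
  simp only [map_mul] at h2
  exact (mul_eq_zero.mp h2).resolve_left (by norm_num)

lemma surj11 : ∀ v, ∃ f ∈ Piece w12 ((1 : ℕ), (1 : ℕ)), ev4 PF f = v := by
  have h : SurjOrInj w12 ((1 : ℕ), (1 : ℕ)) (ev4 PF) := by
    refine surj_of (e1 := mo 1 0 1 0 0) (e2 := mo 1 0 0 1 0) (e3 := mo 1 0 0 0 1)
      (e4 := mo 0 1 0 0 1) (mo_mem' (by omega) (by omega)) (mo_mem' (by omega) (by omega))
      (mo_mem' (by omega) (by omega)) (mo_mem' (by omega) (by omega)) ?_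
    intro v
    refine ⟨v 0, v 1, v 3 - v 0 - v 2, v 2, ?_⟩
    simp only [ev4_eq, eval_mo, PF]
    ext k
    fin_cases k
    · simp
    · simp
    · simp
    · simp
      ring
  rcases h with h | h
  · exact h
  · exfalso
    have h1 := h (mo 0 1 0 1 0) (mo_mem' (by omega) (by omega)) (by
      simp only [ev4_eq, eval_mo, PF]
      ext k
      fin_cases k <;> simp)
    have h5 := congrArg (eval (fun _ => (1 : ℂ))) h1
    rw [eval_mo] at h5
    simp at h5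

section

variable (J : Ideal (MvPolynomial (Fin 5) ℂ))
  (hH : ∀ u, hilbFun w12 J u = min 4 (Module.finrank ℂ (Piece w12 u)))
  (hA : ∀ g ∈ J, act g F12 = 0)

include hH hA

lemma ker11 (f : MvPolynomial (Fin 5) ℂ) (hf : f ∈ Piece w12 ((1 : ℕ), (1 : ℕ)))
    (h0 : ev4 PF f = 0) : f ∈ J := by
  refine mem_of_ev w12 J _ (ev4 PF) (hH _) (fun g hg hgu => ?_) (Or.inl surj11) f hf h0
  ext k
  obtain ⟨h, hh, hhv⟩ := surj11 (Pi.single k 1)
  have h1 := pair_mul J hA (by simp) hg hgu hh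
  have e : ∀ l, eval (PF l) h = (Pi.single k 1 : Fin 4 → ℂ) l := fun l => by
    rw [← hhv, ev4_apply]
  rw [e, e, e, e] at h1
  rw [ev4_apply, Pi.zero_apply]
  fin_cases k <;> simpa using h1

lemma Q1_J : Q1 ∈ J := by
  refine ker11 J hH hA _ ?_ ?_
  · exact piece_congr (by ext <;> simp [w12]) (mul_mem' (X_mem 1) (X_mem 3))
  · simp only [ev4_eq, Q1, PF]
    ext k
    fin_cases k <;> simp

lemma Q2_J : Q2 ∈ J := by
  refine ker11 J hH hA _ ?_ ?_
  · refine Submodule.sub_mem _ ?_ ?_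
    · exact piece_congr (by ext <;> simp [w12]) (mul_mem' (X_mem 0) (X_mem 4))
    · exact piece_congr (by ext <;> simp [w12]) (mul_mem' (X_mem 1) (X_mem 2))
  · simp only [ev4_eq, Q2, PF]
    ext k
    fin_cases k <;> simp

/-- The first open set consists of saturated ideals. -/
lemma U1_sat (hJ : IsHomog w12 J) (f : MvPolynomial (Fin 5) ℂ) (hfJ : f ∈ J)
    (hf : f ∈ Piece w12 ((2 : ℕ), (1 : ℕ))) (h0 : eval ![1, 0, 1, 0, 0] f ≠ 0) : IsSat B12 J := by
  obtain ⟨a0, a1, a2, b0, b1, b2, c0, c1, c2, hfe⟩ := form21 hf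
  have m2 : X 2 ∈ Piece w12 ((0 : ℕ), (1 : ℕ)) := piece_congr (by simp [w12]) (X_mem 2)
  have m4 : X 4 ∈ Piece w12 ((0 : ℕ), (1 : ℕ)) := piece_congr (by simp [w12]) (X_mem 4)
  have m3 : X 3 ∈ Piece w12 ((0 : ℕ), (1 : ℕ)) := piece_congr (by simp [w12]) (X_mem 3)
  have e0 := pair_mul J hA (by simp) hfJ hf m2
  have e1 := pair_mul J hA (by simp) hfJ hf m3
  have e2 := pair_mul J hA (by simp) hfJ hf m4
  rw [hfe] at e0 e1 e2 h0
  simp [PF] at e0 e1 e2 h0
  have hc2 : c2 = a0 := by linear_combination e2 - e0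
  have q1 := Q1_J J hH hA
  have q2 := Q2_J J hH hA
  have hp : pp ((a2 + b0) / a0) ((b2 + c0) / a0) ∈ J := by
    have key : pp ((a2 + b0) / a0) ((b2 + c0) / a0) = C a0⁻¹ * (f - C a2 * X 0 * Q2 -
        C b1 * X 0 * Q1 - C b2 * X 1 * Q2 - C c1 * X 1 * Q1) := by
      have hC : (C a0 : MvPolynomial (Fin 5) ℂ) * C a0⁻¹ = 1 := by
        rw [← C_mul, mul_inv_cancel₀ h0, C_1]
      rw [hfe, e1, hc2, pp, Q1, Q2, div_eq_mul_inv, div_eq_mul_inv]
      simp only [C_mul, C_add, C_0]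
      linear_combination (- X 0 ^ 2 * X 2 - X 1 ^ 2 * X 4) * hC
    rw [key]
    refine J.mul_mem_left _ (J.sub_mem (J.sub_mem (J.sub_mem (J.sub_mem hfJ ?_) ?_) ?_) ?_)
    · exact J.mul_mem_left _ q2
    · exact J.mul_mem_left _ q1
    · exact J.mul_mem_left _ q2
    · exact J.mul_mem_left _ q1
  refine sat_of _ _ J hJ hH (?_ : II ((a2 + b0) / a0) ((b2 + c0) / a0) ≤ J)
  rw [II, Ideal.span_le]
  rintro g (rfl | rfl | rfl)
  · exact q1
  · exact q2
  · exact hp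

noncomputable def EE : MvPolynomial (Fin 5) ℂ := X 1 * X 0 * (X 0 - X 1)

omit hH hA in
lemma EE_mem : EE ∈ Piece w12 ((3 : ℕ), (0 : ℕ)) := by
  have h : X 0 - X 1 ∈ Piece w12 (1, 0) :=
    Submodule.sub_mem _ (piece_congr (by simp [w12]) (X_mem 0))
      (piece_congr (by simp [w12]) (X_mem 1))
  refine piece_congr ?_ (mul_mem' (mul_mem' (X_mem 1) (X_mem 0)) h)
  simp [w12]

/-- The second open set does not contain saturated ideals. -/
lemma U0_nonsat (hs : IsSat B12 J) (f : MvPolynomial (Fin 5) ℂ) (hfJ : f ∈ J)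
    (hf : f ∈ Piece w12 ((0 : ℕ), (2 : ℕ))) (h0 : eval ![1, 0, 1, 0, 0] f ≠ 0) : False := by
  obtain ⟨a, b, c, p, s, r, hfe⟩ := form02 hf
  have m0 : X 0 * X 0 ∈ Piece w12 ((2 : ℕ), (0 : ℕ)) :=
    piece_congr (by simp [w12]) (mul_mem' (X_mem 0) (X_mem 0))
  have m1 : X 1 * X 1 ∈ Piece w12 ((2 : ℕ), (0 : ℕ)) :=
    piece_congr (by simp [w12]) (mul_mem' (X_mem 1) (X_mem 1))
  have m01 : X 0 * X 1 ∈ Piece w12 ((2 : ℕ), (0 : ℕ)) :=
    piece_congr (by simp [w12]) (mul_mem' (X_mem 0) (X_mem 1))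
  have e0 := pair_mul J hA (by simp) hfJ hf m0
  have e1 := pair_mul J hA (by simp) hfJ hf m1
  have e2 := pair_mul J hA (by simp) hfJ hf m01
  rw [hfe] at e0 e1 e2 h0
  simp [PF] at e0 e1 e2 h0
  have hc : c = 0 := by linear_combination e1 - e2
  have hb : b = -a := by linear_combination e0 - e2
  have hq : s = -a := by linear_combination e2 - hc
  have q1 := Q1_J J hH hA
  have q2 := Q2_J J hH hA
  have hC : (C a⁻¹ : MvPolynomial (Fin 5) ℂ) * C a = 1 := by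
    rw [← C_mul, inv_mul_cancel₀ h0, C_1]
  have hfe' : f = C a * X 2 ^ 2 - C a * X 3 ^ 2 + C p * (X 2 * X 3) - C a * (X 2 * X 4) +
      C r * (X 3 * X 4) := by
    rw [hfe, hb, hc, hq]
    simp only [C_neg, C_0]
    ring
  have comb : ∀ x y z : MvPolynomial (Fin 5) ℂ, x * f + y * Q1 + z * Q2 ∈ J := fun x y z =>
    J.add_mem (J.add_mem (J.mul_mem_left _ hfJ) (J.mul_mem_left _ q1)) (J.mul_mem_left _ q2)
  -- multiplication by `C a` can be undone
  have undo : ∀ g : MvPolynomial (Fin 5) ℂ, C a * g ∈ J → g ∈ J := fun g hg => by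
    have := J.mul_mem_left (C a⁻¹) hg
    rwa [← mul_assoc, hC, one_mul] at this
  have k3 : ∀ y : MvPolynomial (Fin 5) ℂ, X 3 * y * EE ∈ J := fun y => by
    have := comb 0 (X 0 * (X 0 - X 1) * y) 0
    have e : X 3 * y * EE = 0 * f + X 0 * (X 0 - X 1) * y * Q1 + 0 * Q2 := by
      rw [EE, Q1]; ring
    rw [e]; exact this
  have k22 : X 2 * X 2 * EE ∈ J := undo _ (by
    have := comb (X 1 * X 0 ^ 2) (C a * X 0 ^ 2 * X 3 - C p * X 0 ^ 2 * X 2 - C r * X 0 ^ 2 * X 4)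
      (C a * X 1 * X 0 * X 2)
    have e : C a * (X 2 * X 2 * EE) = X 1 * X 0 ^ 2 * f +
        (C a * X 0 ^ 2 * X 3 - C p * X 0 ^ 2 * X 2 - C r * X 0 ^ 2 * X 4) * Q1 +
        (C a * X 1 * X 0 * X 2) * Q2 := by
      rw [hfe', EE, Q1, Q2]; ring
    rw [e]; exact this)
  have k24 : X 2 * X 4 * EE ∈ J := undo _ (by
    have := comb (X 0 * X 1 ^ 2) (C a * X 0 * X 1 * X 3 - C p * X 0 * X 1 * X 2 -
      C r * X 0 * X 1 * X 4) (C a * X 0 * X 1 * X 2)
    have e : C a * (X 2 * X 4 * EE) = X 0 * X 1 ^ 2 * f +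
        (C a * X 0 * X 1 * X 3 - C p * X 0 * X 1 * X 2 - C r * X 0 * X 1 * X 4) * Q1 +
        (C a * X 0 * X 1 * X 2) * Q2 := by
      rw [hfe', EE, Q1, Q2]; ring
    rw [e]; exact this)
  have k44 : X 4 * X 4 * EE ∈ J := undo _ (by
    have := comb (X 1 ^ 3) (C a * X 1 ^ 2 * X 3 - C p * X 1 ^ 2 * X 2 -
      C r * X 1 ^ 2 * X 4) (C a * (2 * X 1 ^ 2 * X 2 + X 1 * Q2 - X 1 ^ 2 * X 4))
    have e : C a * (X 4 * X 4 * EE) = X 1 ^ 3 * f +
        (C a * X 1 ^ 2 * X 3 - C p * X 1 ^ 2 * X 2 - C r * X 1 ^ 2 * X 4) * Q1 +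
        (C a * (2 * X 1 ^ 2 * X 2 + X 1 * Q2 - X 1 ^ 2 * X 4)) * Q2 := by
      rw [hfe', EE, Q1, Q2]; ring
    rw [e]; exact this)
  have hE : EE ∈ J := by
    refine hs EE ⟨2, fun b hb => ?_⟩
    have h1 : b ∈ (Ideal.span {X 2, X 3, X 4} : Ideal (MvPolynomial (Fin 5) ℂ)) ^ 2 :=
      Ideal.pow_right_mono inf_le_right 2 hb
    rw [pow_two, Ideal.span_mul_span'] at h1
    refine Submodule.span_induction (p := fun b _ => b * EE ∈ J) ?_ ?_ ?_ ?_ h1
    · rintro x ⟨y, hy, z, hz, rfl⟩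
      rcases hy with rfl | rfl | rfl <;> rcases hz with rfl | rfl | rfl
      · exact k22
      · have := k3 (X 2); rwa [mul_comm (X 3)] at this
      · exact k24
      · exact k3 _
      · exact k3 _
      · exact k3 _
      · have := k24; rwa [mul_comm (X 2)] at this
      · have := k3 (X 4); rwa [mul_comm (X 3)] at this
      · exact k44
    · simp
    · intro x y _ _ hx hy
      rw [add_mul]
      exact J.add_mem hx hy
    · intro c x _ hx
      rw [smul_eq_mul, mul_assoc]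
      exact J.mul_mem_left _ hx
  have hz : EE = 0 := by
    refine zero_of_inj w12 J _ (ev4 (Z 2)) (hH _) (fun g hg h => ?_) EE EE_mem hE
    obtain ⟨a, b, c, d, rfl⟩ := form30 hg
    have e0 := congrFun h 0
    have e1 := congrFun h 1
    have e2 := congrFun h 2
    have e3 := congrFun h 3
    rw [ev4_apply] at e0 e1 e2 e3
    simp [Z, q] at e0 e1 e2 e3
    rw [e0, e3] at e1 e2 ⊢
    have hc : c = 0 := by linear_combination (e1 - 2 * e2) / 2
    have hb : b = 0 := by linear_combination e2 - hc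
    rw [hb, hc]
    simp
  have := congrArg (eval ![2, 1, 0, 0, 0]) hz
  simp [EE] at this
  norm_num at this

end

end Pool.Agent.P8H33.BV
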