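import Pool.Agent.P8H33.BV.Ann

set_option autoImplicit false

namespace Pool.Agent.P8H33.BV

open MvPolynomial

/-! ### The border rank of `F` -/

lemma F12_mem : F12 ∈ Piece w12 ((2 : ℕ), (2 : ℕ)) := by
  have e : F12 = mo 2 0 2 0 0 + mo 2 0 0 2 0 + mo 0 2 0 0 2 +
      (mo 2 0 2 0 0 + (2 : ℂ) • mo 2 0 1 0 1 + mo 2 0 0 0 2 + (2 : ℂ) • mo 1 1 2 0 0 +
        (4 : ℂ) • mo 1 1 1 0 1 + (2 : ℂ) • mo 1 1 0 0 2 + mo 0 2 2 0 0 +
        (2 : ℂ) • mo 0 2 1 0 1 + mo 0 2 0 0 2) := by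
    simp only [F12, mo, smul_eq_C_mul, map_ofNat C]
    ring
  have h : ∀ a b c d e : ℕ, a + b = 2 → c + d + e = 2 →
      mo a b c d e ∈ Piece w12 ((2 : ℕ), (2 : ℕ)) := fun a b c d e h1 h2 => mo_mem' h1 h2
  rw [e]
  have add := @Submodule.add_mem ℂ _ _ _ _ (Piece w12 ((2 : ℕ), (2 : ℕ)))
  have smul := fun (c : ℂ) {x : MvPolynomial (Fin 5) ℂ} =>
    @Submodule.smul_mem ℂ _ _ _ _ (Piece w12 ((2 : ℕ), (2 : ℕ))) x c
  refine add (add (add ?_ ?_) ?_) (add (add (add (add (add (add (add (add ?_ (smul _ ?_)) ?_)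
    (smul _ ?_)) (smul _ ?_)) (smul _ ?_)) ?_) (smul _ ?_)) ?_)
  all_goals exact h _ _ _ _ _ (by omega) (by omega)

lemma point_PF (k : Fin 4) : IsPoint B12 (PF k) := by
  fin_cases k
  · exact isPoint_of 0 2 (by simp) (by simp) (by simp [PF])
  · exact isPoint_of 0 3 (by simp) (by simp) (by simp [PF])
  · exact isPoint_of 1 4 (by simp) (by simp) (by simp [PF])
  · exact isPoint_of 0 2 (by simp) (by simp) (by simp [PF])

lemma secant4 : InSecant w12 B12 (((2 : ℕ) : ℤ), ((2 : ℕ) : ℤ)) 4 F12 := by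
  refine ⟨F12_mem, fun P hP => hP PF F12 point_PF ⟨F12_mem, fun g hg h => ?_⟩⟩
  rw [pair_F g hg, h, h, h, h]
  simp

lemma diffMon_monomial (d b : Fin 5 →₀ ℕ) (c : ℂ) : diffMon d (monomial b c) =
    monomial (b - d) (c * ∏ l, ((b l).descFactorial (d l) : ℂ)) := by
  rw [diffMon5, iter_mono, iter_mono, iter_mono, iter_mono, iter_mono, Fin.prod_univ_five]
  have e : b - Finsupp.single 4 (d 4) - Finsupp.single 3 (d 3) - Finsupp.single 2 (d 2) -
      Finsupp.single 1 (d 1) - Finsupp.single 0 (d 0) = b - d := by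
    ext k
    fin_cases k <;> simp
  rw [e]
  congr 1
  simp
  ring

lemma diffMon_piece {u : ℤ × ℤ} {H : MvPolynomial (Fin 5) ℂ} (hH : H ∈ Piece w12 u)
    (d : Fin 5 →₀ ℕ) (hd : (((d 0 + d 1 : ℕ) : ℤ), ((d 2 + d 3 + d 4 : ℕ) : ℤ)) = u) :
    diffMon d H = C ((∏ l, ((d l).factorial : ℂ)) * coeff d H) := by
  classical
  conv_lhs => rw [H.as_sum, map_sum]
  rw [Finset.sum_eq_single d]
  · rw [diffMon_monomial]
    simp only [Nat.descFactorial_self, tsub_self]
    rw [mul_comm]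
    rfl
  · intro b hb hne
    rw [diffMon_monomial]
    have h1 := (mem12 H u).mp hH b (mem_support_iff.mp hb)
    rw [← hd] at h1
    obtain ⟨h1, h2⟩ := h1
    dsimp only at h1 h2
    have h3 : ∃ l, b l < d l := by
      by_contra hcon
      push Not at hcon
      apply hne
      have k0 := hcon 0
      have k1 := hcon 1
      have k2 := hcon 2
      have k3 := hcon 3
      have k4 := hcon 4
      ext l
      fin_cases l
      · show b 0 = d 0
        omega
      · show b 1 = d 1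
        omega
      · show b 2 = d 2
        omega
      · show b 3 = d 3
        omega
      · show b 4 = d 4
        omega
    obtain ⟨l, hl⟩ := h3
    rw [Finset.prod_eq_zero (Finset.mem_univ l) (by
      rw [Nat.descFactorial_eq_zero_iff_lt.mpr hl]; simp), mul_zero, monomial_zero]
  · intro h
    rw [notMem_support_iff.mp h, monomial_zero, map_zero]

/-- the exponents of `x_0 y_0, x_0 y_1, x_0 y_2, x_1 y_2` -/
noncomputable def ex : Fin 4 → Fin 5 →₀ ℕ :=
  ![Finsupp.single 0 1 + Finsupp.single 2 1, Finsupp.single 0 1 + Finsupp.single 3 1,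
    Finsupp.single 0 1 + Finsupp.single 4 1, Finsupp.single 1 1 + Finsupp.single 4 1]

noncomputable def gm (i : Fin 4) : MvPolynomial (Fin 5) ℂ := monomial (ex i) 1

lemma gm_eq : gm = ![X 0 * X 2, X 0 * X 3, X 0 * X 4, X 1 * X 4] := by
  funext i
  have h : ∀ a b : Fin 5, (monomial (Finsupp.single a 1 + Finsupp.single b 1) 1 :
      MvPolynomial (Fin 5) ℂ) = X a * X b := fun a b => by
    rw [X, X, monomial_mul, one_mul]
  fin_cases i
  · exact h 0 2
  · exact h 0 3
  · exact h 0 4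
  · exact h 1 4

lemma gm_mem (i : Fin 4) : gm i ∈ Piece w12 ((1 : ℕ), (1 : ℕ)) := by
  rw [gm_eq]
  have h : ∀ a b : Fin 5, w12 a + w12 b = (((1 : ℕ) : ℤ), ((1 : ℕ) : ℤ)) →
      (X a * X b : MvPolynomial (Fin 5) ℂ) ∈ Piece w12 ((1 : ℕ), (1 : ℕ)) := fun a b hab =>
    piece_congr hab (mul_mem' (X_mem a) (X_mem b))
  fin_cases i
  · exact h 0 2 (by simp [w12])
  · exact h 0 3 (by simp [w12])
  · exact h 0 4 (by simp [w12])
  · exact h 1 4 (by simp [w12])

lemma gmm_mem (i j : Fin 4) : gm i * gm j ∈ Piece w12 ((2 : ℕ), (2 : ℕ)) :=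
  piece_congr (by simp) (mul_mem' (gm_mem i) (gm_mem j))

/-- the matrix of the catalecticant -/
noncomputable def MM : Matrix (Fin 4) (Fin 4) (MvPolynomial (Fin 5 →₀ ℕ) ℂ) :=
  Matrix.of fun i j => C (∏ l, (((ex i + ex j) l).factorial : ℂ)) * X (ex i + ex j)

lemma act_gmm (i j : Fin 4) {H : MvPolynomial (Fin 5) ℂ} (hH : H ∈ Piece w12 ((2 : ℕ), (2 : ℕ))) :
    act (gm i * gm j) H = C (eval (fun b => coeff b H) (MM i j)) := by
  have e : gm i * gm j = monomial (ex i + ex j) 1 := by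
    rw [gm, gm, monomial_mul, one_mul]
  have hw := (mem12 _ _).mp (gmm_mem i j) (ex i + ex j) (by rw [e]; simp)
  rw [e, act_eq _ _ {ex i + ex j} support_monomial_subset, Finset.sum_singleton, coeff_monomial,
    if_pos rfl, one_smul, diffMon_piece hH _ (Prod.ext_iff.mpr hw)]
  congr 1
  simp [MM]

lemma secant_lt (s : ℕ) (hs : s < 4) :
    ¬ InSecant w12 B12 (((2 : ℕ) : ℤ), ((2 : ℕ) : ℤ)) s F12 := by
  rintro ⟨_, h⟩
  have hdet : ∀ H : MvPolynomial (Fin 5) ℂ, eval (fun b => coeff b H) MM.det =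
      (Matrix.of fun i j => eval (fun b => coeff b H) (MM i j)).det := by
    intro H
    rw [RingHom.map_det]
    rfl
  have h1 := h MM.det ?_
  · rw [hdet] at h1
    have h2 : (Matrix.of fun i j => eval (fun b => coeff b F12) (MM i j)) =
        !![8, 0, 4, 4; 0, 4, 0, 0; 4, 0, 4, 4; 4, 0, 4, 8] := by
      ext i j
      have h3 := act_gmm i j F12_mem
      rw [pair_F _ (gmm_mem i j)] at h3
      have h4 := C_injective (Fin 5) ℂ h3
      rw [Matrix.of_apply, ← h4, gm_eq]
      fin_cases i <;> fin_cases j <;> simp [PF] <;> norm_num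
    rw [h2] at h1
    have h5 : (!![8, 0, 4, 4; 0, 4, 0, 0; 4, 0, 4, 4; 4, 0, 4, 8] :
        Matrix (Fin 4) (Fin 4) ℂ).det = 256 := by
      simp [Matrix.det_succ_row_zero, Fin.sum_univ_succ, Fin.succAbove]
      norm_num
    rw [h5] at h1
    norm_num at h1
  · intro a H _ ⟨hH, hann⟩
    rw [hdet]
    -- a combination of the four forms vanishing at the points
    let T : (Fin 4 → ℂ) →ₗ[ℂ] (Fin s → ℂ) :=
      { toFun := fun c k => ∑ i, c i * eval (a k) (gm i)
        map_add' := fun c d => by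
          ext k
          simp [add_mul, Finset.sum_add_distrib]
        map_smul' := fun r c => by
          ext k
          simp [Finset.mul_sum, mul_assoc] }
    have hT : LinearMap.ker T ≠ ⊥ := LinearMap.ker_ne_bot_of_finrank_lt (by
      rw [Module.finrank_fin_fun, Module.finrank_fin_fun]
      exact hs)
    obtain ⟨c, hc, hc0⟩ := Submodule.exists_mem_ne_zero_of_ne_bot hT
    rw [← Matrix.exists_vecMul_eq_zero_iff]
    refine ⟨c, hc0, ?_⟩
    ext j
    have hg : (∑ i, c i • (gm i * gm j)) ∈ Piece w12 ((2 : ℕ), (2 : ℕ)) :=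
      Submodule.sum_mem _ fun i _ => Submodule.smul_mem _ _ (gmm_mem i j)
    have h6 := hann _ hg (fun k => by
      have h7 := congrFun (LinearMap.mem_ker.mp hc) k
      have h8 : ∑ i, c i * eval (a k) (gm i) = 0 := h7
      rw [map_sum]
      have h9 : ∀ i, eval (a k) (c i • (gm i * gm j)) =
          (c i * eval (a k) (gm i)) * eval (a k) (gm j) := fun i => by
        rw [smul_eq_C_mul, map_mul, map_mul, eval_C, mul_assoc]
      simp_rw [h9]
      rw [← Finset.sum_mul, h8, zero_mul])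
    rw [act_sum] at h6
    simp_rw [act_smul, act_gmm _ j hH, smul_eq_C_mul, ← C_mul] at h6
    rw [← map_sum, C_eq_zero] at h6
    exact h6

theorem borderRank : IsBorderRank w12 B12 (2, 2) F12 4 :=
  ⟨secant4, secant_lt⟩

end Pool.Agent.P8H33.BV
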