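import Pool.Agent.P8H33.BV.Ev

set_option autoImplicit false

namespace Pool.Agent.P8H33.BV

open MvPolynomial

noncomputable def Q1 : MvPolynomial (Fin 5) ℂ := X 1 * X 3
noncomputable def Q2 : MvPolynomial (Fin 5) ℂ := X 0 * X 4 - X 1 * X 2
noncomputable def pp (μ ν : ℂ) : MvPolynomial (Fin 5) ℂ :=
  X 0 ^ 2 * X 2 + C μ * (X 0 * X 1 * X 2) + C ν * (X 1 ^ 2 * X 2) + X 1 ^ 2 * X 4

noncomputable def II (μ ν : ℂ) : Ideal (MvPolynomial (Fin 5) ℂ) := Ideal.span {Q1, Q2, pp μ ν}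

lemma Q1_mem (μ ν : ℂ) : Q1 ∈ II μ ν := Ideal.subset_span (by simp)
lemma Q2_mem (μ ν : ℂ) : Q2 ∈ II μ ν := Ideal.subset_span (by simp)
lemma pp_mem (μ ν : ℂ) : pp μ ν ∈ II μ ν := Ideal.subset_span (by simp)

lemma II_comb (μ ν : ℂ) (a b c : MvPolynomial (Fin 5) ℂ) :
    a * Q1 + b * Q2 + c * pp μ ν ∈ II μ ν :=
  (II μ ν).add_mem ((II μ ν).add_mem ((II μ ν).mul_mem_left _ (Q1_mem μ ν))
    ((II μ ν).mul_mem_left _ (Q2_mem μ ν))) ((II μ ν).mul_mem_left _ (pp_mem μ ν))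

/-- the ideal of the scheme -/
noncomputable def KK (μ ν : ℂ) : Ideal (MvPolynomial (Fin 5) ℂ) :=
  (Ideal.span {Cp μ ν}).comap φ.toRingHom ⊓ RingHom.ker (eval pψ)

lemma mem_KK (μ ν : ℂ) (f : MvPolynomial (Fin 5) ℂ) :
    f ∈ KK μ ν ↔ Cp μ ν ∣ φ f ∧ eval pψ f = 0 := by
  rw [KK, Ideal.mem_inf, Ideal.mem_comap, Ideal.mem_span_singleton, RingHom.mem_ker]
  rfl

lemma II_le (μ ν : ℂ) : II μ ν ≤ KK μ ν := by
  rw [II, Ideal.span_le]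
  intro f hf
  rw [SetLike.mem_coe, mem_KK]
  rcases hf with rfl | rfl | rfl
  · simp [Q1, φ, pψ]
  · simp [Q2, φ, pψ]
  · refine ⟨Dvd.intro 1 ?_, ?_⟩
    · simp [pp, φ, Cp]
      ring
    · simp [pp, pψ]

/-- normal forms -/
noncomputable def NN (μ ν : ℂ) (i j : ℕ) : Submodule ℂ (MvPolynomial (Fin 5) ℂ) :=
  (II μ ν).restrictScalars ℂ ⊔ Submodule.span ℂ {mo (i + 2) 0 0 (j + 1) 0, mo (i + 2) 0 (j + 1) 0 0,
    mo (i + 1) 1 (j + 1) 0 0, mo i 2 (j + 1) 0 0}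

lemma mem_NN (μ ν : ℂ) (i j : ℕ) (f : MvPolynomial (Fin 5) ℂ) (a b c : MvPolynomial (Fin 5) ℂ)
    (c1 c2 c3 c4 : ℂ) (h : f = (a * Q1 + b * Q2 + c * pp μ ν) +
      (C c1 * mo (i + 2) 0 0 (j + 1) 0 + C c2 * mo (i + 2) 0 (j + 1) 0 0 +
      C c3 * mo (i + 1) 1 (j + 1) 0 0 + C c4 * mo i 2 (j + 1) 0 0)) : f ∈ NN μ ν i j := by
  rw [h]
  refine Submodule.add_mem_sup (II_comb μ ν a b c) ?_
  simp only [← smul_eq_C_mul]
  exact Submodule.add_mem _ (Submodule.add_mem _ (Submodule.add_mem _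
    (Submodule.smul_mem _ _ (Submodule.subset_span (by simp)))
    (Submodule.smul_mem _ _ (Submodule.subset_span (by simp))))
    (Submodule.smul_mem _ _ (Submodule.subset_span (by simp))))
    (Submodule.smul_mem _ _ (Submodule.subset_span (by simp)))

lemma NN_mul (μ ν : ℂ) (i j i' j' : ℕ) (k : Fin 5)
    (h1 : X k * mo (i + 2) 0 0 (j + 1) 0 ∈ NN μ ν i' j')
    (h2 : X k * mo (i + 2) 0 (j + 1) 0 0 ∈ NN μ ν i' j')
    (h3 : X k * mo (i + 1) 1 (j + 1) 0 0 ∈ NN μ ν i' j')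
    (h4 : X k * mo i 2 (j + 1) 0 0 ∈ NN μ ν i' j') (f : MvPolynomial (Fin 5) ℂ)
    (hf : f ∈ NN μ ν i j) : X k * f ∈ NN μ ν i' j' := by
  have h : NN μ ν i j ≤ (NN μ ν i' j').comap (LinearMap.mulLeft ℂ (X k)) := by
    rw [NN]
    refine sup_le ?_ ?_
    · intro g hg
      have : X k * g ∈ II μ ν := (II μ ν).mul_mem_left _ hg
      exact Submodule.mem_sup_left this
    · rw [Submodule.span_le]
      rintro g (rfl | rfl | rfl | rfl)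
      · exact h1
      · exact h2
      · exact h3
      · exact h4
  exact h hf

lemma NN_X0 (μ ν : ℂ) (i j : ℕ) (f : MvPolynomial (Fin 5) ℂ) (hf : f ∈ NN μ ν i j) :
    X 0 * f ∈ NN μ ν (i + 1) j := by
  refine NN_mul μ ν i j _ _ 0 ?_ ?_ ?_ ?_ f hf
  · exact mem_NN _ _ _ _ _ 0 0 0 1 0 0 0 (by simp [mo]; ring)
  · exact mem_NN _ _ _ _ _ 0 0 0 0 1 0 0 (by simp [mo]; ring)
  · exact mem_NN _ _ _ _ _ 0 0 0 0 0 1 0 (by simp [mo]; ring)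
  · exact mem_NN _ _ _ _ _ 0 0 0 0 0 0 1 (by simp [mo]; ring)

lemma NN_X1 (μ ν : ℂ) (i j : ℕ) (f : MvPolynomial (Fin 5) ℂ) (hf : f ∈ NN μ ν i j) :
    X 1 * f ∈ NN μ ν (i + 1) j := by
  refine NN_mul μ ν i j _ _ 1 ?_ ?_ ?_ ?_ f hf
  · exact mem_NN _ _ _ _ _ (X 0 ^ (i + 2) * X 3 ^ j) 0 0 0 0 0 0 (by simp [mo, Q1]; ring)
  · exact mem_NN _ _ _ _ _ 0 0 0 0 0 1 0 (by simp [mo]; ring)
  · exact mem_NN _ _ _ _ _ 0 0 0 0 0 0 1 (by simp [mo]; ring)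
  · exact mem_NN _ _ _ _ _ 0 (-(X 1 ^ 2 * X 0 ^ i * X 2 ^ j)) (X 0 ^ (i + 1) * X 2 ^ j)
      0 (-1) (-μ) (-ν) (by simp [mo, Q2, pp]; ring)

lemma NN_X2 (μ ν : ℂ) (i j : ℕ) (f : MvPolynomial (Fin 5) ℂ) (hf : f ∈ NN μ ν i j) :
    X 2 * f ∈ NN μ ν i (j + 1) := by
  refine NN_mul μ ν i j _ _ 2 ?_ ?_ ?_ ?_ f hf
  · exact mem_NN _ _ _ _ _
      (-(C μ * X 0 * X 2 + C ν * X 1 * X 2 + X 1 * X 4) * X 0 ^ i * X 3 ^ j) 0
      (X 0 ^ i * X 3 ^ (j + 1)) 0 0 0 0 (by simp [mo, Q1, pp]; ring)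
  · exact mem_NN _ _ _ _ _ 0 0 0 0 1 0 0 (by simp [mo]; ring)
  · exact mem_NN _ _ _ _ _ 0 0 0 0 0 1 0 (by simp [mo]; ring)
  · exact mem_NN _ _ _ _ _ 0 0 0 0 0 0 1 (by simp [mo]; ring)

lemma NN_X3 (μ ν : ℂ) (i j : ℕ) (f : MvPolynomial (Fin 5) ℂ) (hf : f ∈ NN μ ν i j) :
    X 3 * f ∈ NN μ ν i (j + 1) := by
  refine NN_mul μ ν i j _ _ 3 ?_ ?_ ?_ ?_ f hf
  · exact mem_NN _ _ _ _ _ 0 0 0 1 0 0 0 (by simp [mo]; ring)
  · exact mem_NN _ _ _ _ _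
      (-(C μ * X 0 * X 2 + C ν * X 1 * X 2 + X 1 * X 4) * X 0 ^ i * X 2 ^ j) 0
      (X 0 ^ i * X 2 ^ j * X 3) 0 0 0 0 (by simp [mo, Q1, pp]; ring)
  · exact mem_NN _ _ _ _ _ (X 0 ^ (i + 1) * X 2 ^ (j + 1)) 0 0 0 0 0 0 (by simp [mo, Q1]; ring)
  · exact mem_NN _ _ _ _ _ (X 0 ^ i * X 1 * X 2 ^ (j + 1)) 0 0 0 0 0 0 (by simp [mo, Q1]; ring)

lemma NN_X4 (μ ν : ℂ) (i j : ℕ) (f : MvPolynomial (Fin 5) ℂ) (hf : f ∈ NN μ ν i j) :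
    X 4 * f ∈ NN μ ν i (j + 1) := by
  refine NN_mul μ ν i j _ _ 4 ?_ ?_ ?_ ?_ f hf
  · exact mem_NN _ _ _ _ _ (X 0 ^ (i + 1) * X 3 ^ j * X 2) (X 0 ^ (i + 1) * X 3 ^ (j + 1)) 0
      0 0 0 0 (by simp [mo, Q1, Q2]; ring)
  · exact mem_NN _ _ _ _ _ 0 (X 0 ^ (i + 1) * X 2 ^ (j + 1)) 0 0 0 1 0 (by simp [mo, Q2]; ring)
  · exact mem_NN _ _ _ _ _ 0 (X 0 ^ i * X 1 * X 2 ^ (j + 1)) 0 0 0 0 1 (by simp [mo, Q2]; ring)
  · exact mem_NN _ _ _ _ _ 0 0 (X 0 ^ i * X 2 ^ (j + 1)) 0 (-1) (-μ) (-ν)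
      (by simp [mo, pp]; ring)

lemma mo_succ0 (a b c d e : ℕ) : mo (a + 1) b c d e = X 0 * mo a b c d e := by simp [mo]; ring
lemma mo_succ1 (a b c d e : ℕ) : mo a (b + 1) c d e = X 1 * mo a b c d e := by simp [mo]; ring
lemma mo_succ2 (a b c d e : ℕ) : mo a b (c + 1) d e = X 2 * mo a b c d e := by simp [mo]; ring
lemma mo_succ3 (a b c d e : ℕ) : mo a b c (d + 1) e = X 3 * mo a b c d e := by simp [mo]; ring
lemma mo_succ4 (a b c d e : ℕ) : mo a b c d (e + 1) = X 4 * mo a b c d e := by simp [mo]; ring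

lemma NN_base (μ ν : ℂ) (a b c d e : ℕ) (h1 : a + b = 2) (h2 : c + d + e = 1) :
    mo a b c d e ∈ NN μ ν 0 0 := by
  obtain ⟨rfl, rfl⟩ | ⟨rfl, rfl⟩ | ⟨rfl, rfl⟩ :
    (a = 2 ∧ b = 0) ∨ (a = 1 ∧ b = 1) ∨ (a = 0 ∧ b = 2) := by omega
  · obtain ⟨rfl, rfl, rfl⟩ | ⟨rfl, rfl, rfl⟩ | ⟨rfl, rfl, rfl⟩ :
      (c = 1 ∧ d = 0 ∧ e = 0) ∨ (c = 0 ∧ d = 1 ∧ e = 0) ∨ (c = 0 ∧ d = 0 ∧ e = 1) := by omega
    · exact mem_NN _ _ _ _ _ 0 0 0 0 1 0 0 (by simp)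
    · exact mem_NN _ _ _ _ _ 0 0 0 1 0 0 0 (by simp)
    · exact mem_NN _ _ _ _ _ 0 (X 0) 0 0 0 1 0 (by simp [mo, Q2]; ring)
  · obtain ⟨rfl, rfl, rfl⟩ | ⟨rfl, rfl, rfl⟩ | ⟨rfl, rfl, rfl⟩ :
      (c = 1 ∧ d = 0 ∧ e = 0) ∨ (c = 0 ∧ d = 1 ∧ e = 0) ∨ (c = 0 ∧ d = 0 ∧ e = 1) := by omega
    · exact mem_NN _ _ _ _ _ 0 0 0 0 0 1 0 (by simp)
    · exact mem_NN _ _ _ _ _ (X 0) 0 0 0 0 0 0 (by simp [mo, Q1]; ring)
    · exact mem_NN _ _ _ _ _ 0 (X 1) 0 0 0 0 1 (by simp [mo, Q2]; ring)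
  · obtain ⟨rfl, rfl, rfl⟩ | ⟨rfl, rfl, rfl⟩ | ⟨rfl, rfl, rfl⟩ :
      (c = 1 ∧ d = 0 ∧ e = 0) ∨ (c = 0 ∧ d = 1 ∧ e = 0) ∨ (c = 0 ∧ d = 0 ∧ e = 1) := by omega
    · exact mem_NN _ _ _ _ _ 0 0 0 0 0 0 1 (by simp)
    · exact mem_NN _ _ _ _ _ (X 1) 0 0 0 0 0 0 (by simp [mo, Q1]; ring)
    · exact mem_NN _ _ _ _ _ 0 0 1 0 (-1) (-μ) (-ν) (by simp [mo, pp]; ring)

lemma NN_mono (μ ν : ℂ) (i j : ℕ) : ∀ a b c d e : ℕ, a + b = i + 2 → c + d + e = j + 1 →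
    mo a b c d e ∈ NN μ ν i j := by
  induction i with
  | zero =>
    induction j with
    | zero => exact fun a b c d e h1 h2 => NN_base μ ν a b c d e h1 h2
    | succ j ih =>
      intro a b c d e h1 h2
      obtain hc | hd | he : 1 ≤ c ∨ 1 ≤ d ∨ 1 ≤ e := by omega
      · obtain ⟨c, rfl⟩ := Nat.exists_eq_add_of_le' hc
        rw [mo_succ2]
        exact NN_X2 μ ν 0 j _ (ih a b c d e h1 (by omega))
      · obtain ⟨d, rfl⟩ := Nat.exists_eq_add_of_le' hd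
        rw [mo_succ3]
        exact NN_X3 μ ν 0 j _ (ih a b c d e h1 (by omega))
      · obtain ⟨e, rfl⟩ := Nat.exists_eq_add_of_le' he
        rw [mo_succ4]
        exact NN_X4 μ ν 0 j _ (ih a b c d e h1 (by omega))
  | succ i ih =>
    intro a b c d e h1 h2
    obtain ha | hb : 1 ≤ a ∨ 1 ≤ b := by omega
    · obtain ⟨a, rfl⟩ := Nat.exists_eq_add_of_le' ha
      rw [mo_succ0]
      exact NN_X0 μ ν i j _ (ih a b c d e (by omega) h2)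
    · obtain ⟨b, rfl⟩ := Nat.exists_eq_add_of_le' hb
      rw [mo_succ1]
      exact NN_X1 μ ν i j _ (ih a b c d e (by omega) h2)

/-- In the degrees `(i + 2, j + 1)` the ideal `J` agrees with `II`. -/
lemma J_eq_II (μ ν : ℂ) (J : Ideal (MvPolynomial (Fin 5) ℂ)) (hIJ : II μ ν ≤ J) (i j : ℕ)
    (hH : hilbFun w12 J (((i + 2 : ℕ) : ℤ), ((j + 1 : ℕ) : ℤ)) =
      min 4 (Module.finrank ℂ (Piece w12 (((i + 2 : ℕ) : ℤ), ((j + 1 : ℕ) : ℤ)))))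
    (f : MvPolynomial (Fin 5) ℂ) (hf : f ∈ Piece w12 (((i + 2 : ℕ) : ℤ), ((j + 1 : ℕ) : ℤ)))
    (hfJ : f ∈ J) : f ∈ II μ ν := by
  set u : ℤ × ℤ := (((i + 2 : ℕ) : ℤ), ((j + 1 : ℕ) : ℤ)) with hu
  have hN : Piece w12 u ≤ NN μ ν i j := piece_span _ _ _ (NN_mono μ ν i j)
  -- the dimension of `S_u` is at least four
  have h4 : 4 ≤ Module.finrank ℂ (Piece w12 u) := by
    rcases SOI_K μ ν u with h | h
    · exact (finrank_quot_of_surj ((evK μ ν).comp (Piece w12 u).subtype) (fun v => by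
        obtain ⟨f, hf, hv⟩ := h v
        exact ⟨⟨f, hf⟩, hv⟩)).2
    · exfalso
      have h1 : mo (i + 2) 0 0 (j + 1) 0 + C (-1) * mo (i + 1) 1 0 (j + 1) 0 -
          C (-1) * mo (i + 1) 1 0 (j + 1) 0 ∈ Piece w12 u := by
        simpa using mo_mem' (a := i + 2) (b := 0) (c := 0) (d := j + 1) (e := 0)
          (by omega) (by omega)
      have h2 : mo (i + 1) 1 0 (j + 1) 0 ∈ Piece w12 u := mo_mem' (by omega) (by omega)
      have h3 := h _ h2 ((evK_zero μ ν _).mpr ⟨by rw [φ_mo]; simp, by rw [eval_mo]; simp [pψ]⟩)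
      have h5 := congrArg (eval (fun _ => (1 : ℂ))) h3
      rw [eval_mo] at h5
      simp at h5
  have hle : part w12 (II μ ν) u ≤ part w12 J u := fun g hg => hIJ hg
  -- the quotient by `II` has dimension at most four
  have hq : Module.finrank ℂ (Piece w12 u ⧸ part w12 (II μ ν) u) ≤ 4 := by
    set e : Fin 4 → Piece w12 u := ![⟨mo (i + 2) 0 0 (j + 1) 0, mo_mem' (by omega) (by omega)⟩,
      ⟨mo (i + 2) 0 (j + 1) 0 0, mo_mem' (by omega) (by omega)⟩,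
      ⟨mo (i + 1) 1 (j + 1) 0 0, mo_mem' (by omega) (by omega)⟩,
      ⟨mo i 2 (j + 1) 0 0, mo_mem' (by omega) (by omega)⟩] with he
    set L : (Fin 4 → ℂ) →ₗ[ℂ] (Piece w12 u ⧸ part w12 (II μ ν) u) :=
      (part w12 (II μ ν) u).mkQ.comp (Fintype.linearCombination ℂ e) with hL
    have hs : Function.Surjective L := by
      intro x
      obtain ⟨⟨g, hg⟩, rfl⟩ := Submodule.mkQ_surjective _ x
      obtain ⟨ι, hι, m, hm, hgm⟩ := Submodule.mem_sup.mp (hN hg)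
      obtain ⟨c1, m, hm, e1⟩ := Submodule.mem_span_insert.mp hm
      obtain ⟨c2, c3, c4, e2⟩ := Submodule.mem_span_triple.mp hm
      refine ⟨![c1, c2, c3, c4], ?_⟩
      rw [hL, LinearMap.comp_apply, ← sub_eq_zero, ← map_sub, ← LinearMap.mem_ker,
        Submodule.ker_mkQ, mem_part]
      have : ((Fintype.linearCombination ℂ e ![c1, c2, c3, c4] - ⟨g, hg⟩ : Piece w12 u) :
          MvPolynomial (Fin 5) ℂ) = - ι := by
        rw [Fintype.linearCombination_apply, Fin.sum_univ_four, he]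
        simp only [Matrix.cons_val, AddSubgroupClass.coe_sub, Submodule.coe_add,
          Submodule.coe_smul]
        rw [← hgm, e1, ← e2]
        ring
      rw [this]
      exact (II μ ν).neg_mem hι
    have := LinearMap.finrank_le_finrank_of_surjective hs
    rwa [Module.finrank_fin_fun] at this
  have h5 : Module.finrank ℂ (Piece w12 u ⧸ part w12 J u) = 4 := by
    have : Module.finrank ℂ (Piece w12 u ⧸ part w12 J u) = _ := hH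
    rw [this]
    omega
  have h6 := (part w12 J u).finrank_quotient_add_finrank
  have h7 := (part w12 (II μ ν) u).finrank_quotient_add_finrank
  have h8 : part w12 (II μ ν) u = part w12 J u :=
    Submodule.eq_of_le_of_finrank_le hle (by omega)
  have h9 : (⟨f, hf⟩ : Piece w12 u) ∈ part w12 J u := hfJ
  rw [← h8] at h9
  exact h9

end Pool.Agent.P8H33.BV
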