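import Pool.Agent.P8H33.BV.Sat

set_option autoImplicit false

namespace Pool.Agent.P8H33.BV

open MvPolynomial

lemma comp_pow_mul {n : ℕ} {G : Type} [AddCommGroup G] (w : Fin n → G) (i : Fin n) (N : ℕ) :
    ∀ (u : G) (f : MvPolynomial (Fin n) ℂ),
    weightedHomogeneousComponent w (u + N • w i) (X i ^ N * f) =
      X i ^ N * weightedHomogeneousComponent w u f := by
  induction N with
  | zero => intro u f; simp
  | succ N ih =>
    intro u f
    have e : X i ^ (N + 1) * f = X i * (X i ^ N * f) := by ring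
    have e2 : u + (N + 1) • w i - w i = u + N • w i := by
      rw [add_smul, one_smul]; abel
    rw [e, comp_X_mul, e2, ih]
    ring

lemma piece_congr {u v : ℤ × ℤ} (h : u = v) {f : MvPolynomial (Fin 5) ℂ} (hf : f ∈ Piece w12 u) :
    f ∈ Piece w12 v := h ▸ hf

section

variable (μ ν : ℂ) (J : Ideal (MvPolynomial (Fin 5) ℂ)) (hJ : IsHomog w12 J)
  (hH : ∀ u, hilbFun w12 J u = min 4 (Module.finrank ℂ (Piece w12 u))) (hIJ : II μ ν ≤ J)

include hH hIJ

lemma J_KK {u : ℤ × ℤ} (f : MvPolynomial (Fin 5) ℂ) (hf : f ∈ Piece w12 u) (hfJ : f ∈ J) :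
    f ∈ KK μ ν := by
  by_cases h0 : f = 0
  · rw [h0]; exact (KK μ ν).zero_mem
  · obtain ⟨i, j, rfl⟩ := eff hf h0
    have m1 : mo 2 0 1 0 0 * f ∈ Piece w12 (((i + 2 : ℕ) : ℤ), ((j + 1 : ℕ) : ℤ)) := by
      refine piece_congr ?_ (mul_mem' (mo_mem 2 0 1 0 0) hf)
      ext <;> simp <;> ring
    have m2 : mo 2 0 0 1 0 * f ∈ Piece w12 (((i + 2 : ℕ) : ℤ), ((j + 1 : ℕ) : ℤ)) := by
      refine piece_congr ?_ (mul_mem' (mo_mem 2 0 0 1 0) hf)
      ext <;> simp <;> ring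
    have k1 := II_le μ ν (J_eq_II μ ν J hIJ i j (hH _) _ m1 (J.mul_mem_left _ hfJ))
    have k2 := II_le μ ν (J_eq_II μ ν J hIJ i j (hH _) _ m2 (J.mul_mem_left _ hfJ))
    rw [mem_KK] at k1 k2 ⊢
    refine ⟨?_, ?_⟩
    · have := k1.1
      rwa [map_mul, φ_mo, add_zero, pow_zero, pow_zero, mul_one, one_mul] at this
    · have := k2.2
      rw [map_mul, eval_mo] at this
      simpa [pψ] using this

lemma KK_J {u : ℤ × ℤ} (f : MvPolynomial (Fin 5) ℂ) (hf : f ∈ Piece w12 u) (hfK : f ∈ KK μ ν) :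
    f ∈ J := by
  refine mem_of_ev w12 J u (evK μ ν) (hH u) (fun g hg hgu => ?_) (SOI_K μ ν u) f hf ?_
  · exact (evK_zero μ ν g).mpr ((mem_KK μ ν g).mp (J_KK μ ν J hH hIJ g hgu hg))
  · exact (evK_zero μ ν f).mpr ((mem_KK μ ν f).mp hfK)

include hJ

/-- Ideals in the multigraded Hilbert scheme which contain `Q1`, `Q2`, `pp` are saturated. -/
lemma sat_of : IsSat B12 J := by
  rintro f ⟨N, hN⟩
  refine mem_of_comp w12 J f fun u => ?_
  refine KK_J μ ν J hH hIJ _ (comp_mem w12 u f) ?_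
  have b1 : (X 0 * X 2 : MvPolynomial (Fin 5) ℂ) ∈ B12 := by
    refine ⟨Ideal.mul_mem_right _ _ (Ideal.subset_span (by simp)),
      Ideal.mul_mem_left _ _ (Ideal.subset_span (by simp))⟩
  have b2 : (X 0 * X 3 : MvPolynomial (Fin 5) ℂ) ∈ B12 := by
    refine ⟨Ideal.mul_mem_right _ _ (Ideal.subset_span (by simp)),
      Ideal.mul_mem_left _ _ (Ideal.subset_span (by simp))⟩
  have c1 := hJ _ (hN _ (Ideal.pow_mem_pow b1 N)) (u + N • w12 2 + N • w12 0)
  have c2 := hJ _ (hN _ (Ideal.pow_mem_pow b2 N)) (u + N • w12 3 + N • w12 0)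
  rw [mul_pow, mul_assoc, comp_pow_mul, comp_pow_mul] at c1 c2
  have d1 := J_KK μ ν J hH hIJ (u := (N • w12 0 + (N • w12 2 + u))) _
    (mul_mem' (pow_mem' (X_mem 0) N) (mul_mem' (pow_mem' (X_mem 2) N) (comp_mem w12 u f))) c1
  have d2 := J_KK μ ν J hH hIJ (u := (N • w12 0 + (N • w12 3 + u))) _
    (mul_mem' (pow_mem' (X_mem 0) N) (mul_mem' (pow_mem' (X_mem 3) N) (comp_mem w12 u f))) c2
  rw [mem_KK] at d1 d2 ⊢
  refine ⟨?_, ?_⟩
  · have := d1.1
    rw [map_mul, map_mul, map_pow, map_pow] at this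
    simpa [φ] using this
  · have := d2.2
    simpa [pψ] using this

end

end Pool.Agent.P8H33.BV
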